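import Pool.Agent.W_448ut_h16.UtE

/-!
# The sum over the switches (MP_448cb3_co, unit trick)

`toggle_dvd`: a sum of terms over a set of configurations which is closed under the switches is
divisible by `dd ^ N` as soon as, for every set `Q` of switches, the part of the sum without state `A`
and with state `B` exactly on `Q` is divisible by `dd ^ (N - |Q|)`. `XC_toggle`: the same for `XC`.
-/

namespace Pool.Agent.GaussPoset.Win.Ut

set_option linter.unusedSectionVars false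

open Finset I2

universe u

variable {P : Type u} [Fintype P] [PartialOrder P] [DecidableEq P] {r i l : ℕ}

/-- a family of switches, indexed by the elements `d` -/
structure Fam (P : Type u) [Fintype P] [PartialOrder P] [DecidableEq P] (i : ℕ) (D : Finset P)
    (sw : P → Sw P) : Prop where
  ok : ∀ d ∈ D, SwOK P i d (sw d)
  px : ∀ d ∈ D, (sw d).p ≠ (sw d).x
  qx : ∀ d ∈ D, (sw d).q ≠ (sw d).x
  ww : ∀ d ∈ D, (sw d).w ≠ (sw d).w'

section congr

variable {d d' : P} {s s' : Sw P} {e f : P → ℕ}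

/-- the elements which are read by a switch -/
def Rd (d : P) (s : Sw P) (y : P) : Prop :=
  y = s.w ∨ y = s.w' ∨ y = s.p ∨ y = s.q ∨ y = s.x ∨ y = d ∨ y ⋖ d ∨
    (y ≠ d ∧ (y ⋖ s.w ∨ y ⋖ s.w')) ∨ s.x ⋖ y

lemma StC.of_rd (h : StC d s e) (hef : ∀ y, Rd d s y → f y = e y) : StC d s f where
  w1 := by rw [hef _ (Or.inl rfl)]; exact h.w1
  w1' := by rw [hef _ (Or.inr (Or.inl rfl))]; exact h.w1'
  p0 := by rw [hef _ (Or.inr (Or.inr (Or.inl rfl)))]; exact h.p0
  q0 := by rw [hef _ (Or.inr (Or.inr (Or.inr (Or.inl rfl))))]; exact h.q0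
  t1 := fun t ht => by
    rw [hef t (by unfold Rd; tauto)]; exact h.t1 t ht
  o0 := fun y hy hy' => by
    rw [hef y (by unfold Rd; tauto)]; exact h.o0 y hy hy'
  u0 := fun u hu => by
    rw [hef u (by unfold Rd; tauto)]; exact h.u0 u hu

lemma StA.of_rd (h : StA d s e) (hef : ∀ y, Rd d s y → f y = e y) : StA d s f :=
  ⟨h.toStC.of_rd hef, by rw [hef d (by unfold Rd; tauto)]; exact h.d2,
    by rw [hef s.x (by unfold Rd; tauto)]; exact h.x0⟩

lemma StB.of_rd (h : StB d s e) (hef : ∀ y, Rd d s y → f y = e y) : StB d s f :=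
  ⟨h.toStC.of_rd hef, by rw [hef d (by unfold Rd; tauto)]; exact h.d1,
    by rw [hef s.x (by unfold Rd; tauto)]; exact h.x1⟩

/-- two different switches do not disturb each other -/
lemma no_rd (H : Gr P r) (K : SwOK P i d s) (K' : SwOK P i d' s') (hne : d ≠ d')
    (hn : ¬ (d ⋖ s'.w ∨ d ⋖ s'.w')) : ¬ Rd d' s' d ∧ ¬ Rd d' s' s.x := by
  obtain ⟨l1, l2⟩ := K.lw H
  obtain ⟨l1', l2'⟩ := K'.lw H
  obtain ⟨l3, l4⟩ := K.lp H
  obtain ⟨l3', l4'⟩ := K'.lp H
  have ld := K.ld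
  have ld' := K'.ld
  have lx := K.lx
  have lx' := K'.lx
  push Not at hn
  constructor
  · rintro (h | h | h | h | h | h | h | h | h)
    · rw [h] at ld; omega
    · rw [h] at ld; omega
    · rw [h] at ld; omega
    · rw [h] at ld; omega
    · rw [h] at ld; omega
    · exact hne h
    · have := lev_uc H (mem_uc.2 h); omega
    · rcases h.2 with h2 | h2
      · exact hn.1 h2
      · exact hn.2 h2
    · have := lev_uc H (mem_uc.2 h); omega
  · have key : ∀ z, z ⋖ s.x → d ⋖ z := fun z hz => by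
      rcases K.cov_x hz with rfl | rfl
      · exact K.cov_w
      · exact K.cov_w'
    rintro (h | h | h | h | h | h | h | h | h)
    · rw [h] at lx; omega
    · rw [h] at lx; omega
    · exact hn.1 (key _ (by
        rw [h]
        exact mem_uc.1 (by rw [K'.ucw]; simp)))
    · exact hn.2 (key _ (by
        rw [h]
        exact mem_uc.1 (by rw [K'.ucw']; simp)))
    · exact hn.1 (key _ (by rw [h]; exact K'.wx))
    · rw [h] at lx; omega
    · have := lev_uc H (mem_uc.2 h); omega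
    · rcases h.2 with h2 | h2
      · have := lev_uc H (mem_uc.2 h2); omega
      · have := lev_uc H (mem_uc.2 h2); omega
    · have := lev_uc H (mem_uc.2 h); omega

/-- the state of another switch after the toggle -/
lemma ke (H : Gr P r) (K : SwOK P i d s) (K' : SwOK P i d' s') (hne : d ≠ d') (h : StA d s e) :
    (StA d' s' (tog d s e) ↔ StA d' s' e) ∧ (StB d' s' (tog d s e) ↔ StB d' s' e) := by
  by_cases hn : d ⋖ s'.w ∨ d ⋖ s'.w'
  · have n1 : ¬ StC d' s' e := fun h1 => by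
      have := h1.o0 d hne hn
      rw [h.d2] at this
      omega
    have n2 : ¬ StC d' s' (tog d s e) := fun h1 => by
      have := h1.o0 d hne hn
      rw [tog_d] at this
      omega
    exact ⟨⟨fun h1 => absurd h1.toStC n2, fun h1 => absurd h1.toStC n1⟩,
      ⟨fun h1 => absurd h1.toStC n2, fun h1 => absurd h1.toStC n1⟩⟩
  · obtain ⟨g1, g2⟩ := no_rd H K K' hne hn
    have h1 : ∀ y, Rd d' s' y → tog d s e y = e y := fun y hy =>
      tog_of (by rintro rfl; exact g1 hy) (by rintro rfl; exact g2 hy)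
    exact ⟨⟨fun h2 => h2.of_rd fun y hy => (h1 y hy).symm, fun h2 => h2.of_rd h1⟩,
      ⟨fun h2 => h2.of_rd fun y hy => (h1 y hy).symm, fun h2 => h2.of_rd h1⟩⟩

end congr

section fam

variable {D : Finset P} {sw : P → Sw P} {Ω : Finset (P → ℕ)}

theorem Fam.switches (H : Gr P r) (F : Fam P i D sw)
    (hA : ∀ d ∈ D, ∀ e ∈ Ω, StA d (sw d) e → tog d (sw d) e ∈ Ω)
    (hB : ∀ d ∈ D, ∀ e ∈ Ω, StB d (sw d) e → gto d (sw d) e ∈ Ω) :
    Switches Ω D (fun d e => StA d (sw d) e) (fun d e => StB d (sw d) e)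
      (fun d e => tog d (sw d) e) (fun d e => gto d (sw d) e) where
  ab := fun d hd e he h => ⟨h.tog H (F.ok d hd) (F.px d hd) (F.qx d hd), h.back (F.ok d hd),
    hA d hd e he h⟩
  ba := fun d hd e he h => ⟨h.gto H (F.ok d hd) (F.px d hd) (F.qx d hd), h.back (F.ok d hd),
    hB d hd e he h⟩
  ex := fun d _ e _ h1 h2 => by
    have e1 := h1.d2
    have e2 := h2.d1
    omega
  keA := fun d hd d' hd' hne e _ h => (ke H (F.ok d hd) (F.ok d' hd') hne h).1
  keB := fun d hd d' hd' hne e _ h => (ke H (F.ok d hd) (F.ok d' hd') hne h).2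

lemma dd_dvd_cube : dd ∣ 1 + xx ^ 3 := by
  refine ⟨dd ^ 2 - 3 * dd + 3, ?_⟩
  unfold xx
  ring

open Classical in
/-- THE SUM OVER THE SWITCHES -/
theorem toggle_dvd (H : Gr P r) (F : Fam P i D sw) {C : Finset P} (hC : Part i C)
    (hΩ : ∀ e ∈ Ω, Spt C e)
    (hA : ∀ d ∈ D, ∀ e ∈ Ω, StA d (sw d) e → tog d (sw d) e ∈ Ω)
    (hB : ∀ d ∈ D, ∀ e ∈ Ω, StB d (sw d) e → gto d (sw d) e ∈ Ω) (N : ℕ)
    (hN : ∀ Q, Q ⊆ D → dd ^ N ∣ dd ^ Q.card *
      ∑ e ∈ Ω.filter (fun e => ∀ d ∈ D, ¬ StA d (sw d) e ∧ (StB d (sw d) e ↔ d ∈ Q)), tC i C e) :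
    dd ^ N ∣ ∑ e ∈ Ω, tC i C e :=
  (F.switches H hA hB).dvd (xx ^ 3) dd dd_dvd_cube (fun e => tC i C e)
    (fun d hd e he h => tC_tog H (F.ok d hd) (F.ww d hd) hC (hΩ e he) h) (dd ^ N)
    (fun Q hQ => by convert hN Q hQ)

/-- the toggle does not change the total -/
lemma sum_tog {d : P} {s : Sw P} {e : P → ℕ} {C : Finset P} (K : SwOK P i d s) (hd : d ∈ C)
    (hx : s.x ∈ C) (h : StA d s e) : C.sum (tog d s e) = C.sum e := by
  have h1 : ∀ g : P → ℕ, C.sum g = g d + (g s.x + ((C.erase d).erase s.x).sum g) := by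
    intro g
    rw [add_sum_erase _ g (mem_erase.2 ⟨K.dx.symm, hx⟩), add_sum_erase _ g hd]
  rw [h1 (tog d s e), h1 e, tog_d, tog_x K, h.d2, h.x0]
  have h2 : ((C.erase d).erase s.x).sum (tog d s e) = ((C.erase d).erase s.x).sum e := by
    refine sum_congr rfl fun y hy => ?_
    rw [mem_erase, mem_erase] at hy
    exact tog_of hy.2.1 hy.1
  omega

lemma sum_gto {d : P} {s : Sw P} {e : P → ℕ} {C : Finset P} (K : SwOK P i d s) (hd : d ∈ C)
    (hx : s.x ∈ C) (h : StB d s e) : C.sum (gto d s e) = C.sum e := by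
  have h1 : ∀ g : P → ℕ, C.sum g = g d + (g s.x + ((C.erase d).erase s.x).sum g) := by
    intro g
    rw [add_sum_erase _ g (mem_erase.2 ⟨K.dx.symm, hx⟩), add_sum_erase _ g hd]
  rw [h1 (gto d s e), h1 e, gto_d, gto_x K, h.d1, h.x1]
  have h2 : ((C.erase d).erase s.x).sum (gto d s e) = ((C.erase d).erase s.x).sum e := by
    refine sum_congr rfl fun y hy => ?_
    rw [mem_erase, mem_erase] at hy
    exact gto_of hy.2.1 hy.1
  omega

end fam

section cross

variable {ι : Type*} [DecidableEq ι] {κ : P → ι} {D : Finset P} {sw : P → Sw P} {S : Finset ι}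

lemma Tch_congr {e f : P → ℕ} (h : ∀ z, z ∉ cuni l κ → (e z ≠ 0 ↔ f z ≠ 0)) :
    Tch l κ e = Tch l κ f := by
  ext a
  rw [mem_Tch, mem_Tch]
  constructor
  · rintro ⟨y, ⟨h1, z, h2, h3, h4⟩, h5⟩
    exact ⟨y, ⟨h1, z, h2, (h z h2).1 h3, h4⟩, h5⟩
  · rintro ⟨y, ⟨h1, z, h2, h3, h4⟩, h5⟩
    exact ⟨y, ⟨h1, z, h2, (h z h2).2 h3, h4⟩, h5⟩

lemma SwOK.x_mem {d : P} {s : Sw P} {C : Finset P} (K : SwOK P i d s) (hC : Part i C)
    (hd : d ∈ C) : s.x ∈ C := hC.up (hC.up hd K.cov_w) K.wx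

open Classical in
/-- THE SUM OVER THE SWITCHES for the cross series -/
theorem XC_toggle (H : Gr P r) (hil : i ≤ l) (hκ : Split l κ) (F : Fam P i D sw)
    (hD : ∀ d ∈ D, d ∈ US l κ S) (hcu : ∀ d ∈ D, d ∈ cuni l κ) (n N : ℕ)
    (hN : ∀ Q, Q ⊆ D → dd ^ N ∣ dd ^ Q.card *
      ∑ e ∈ (((US l κ S).piAntidiag n).filter (fun e => Tch l κ e = S)).filter
        (fun e => ∀ d ∈ D, ¬ StA d (sw d) e ∧ (StB d (sw d) e ↔ d ∈ Q)),
        tC i (US l κ S) e) :
    dd ^ N ∣ XC i l κ S n := by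
  have hPC : Part i (US l κ S) := part_US H hil hκ S
  unfold XC
  refine toggle_dvd H F hPC (fun e he => spt_of_mem (mem_filter.1 he).1) ?_ ?_ N hN
  · intro d hd e he h
    rw [mem_filter, mem_pa] at he ⊢
    obtain ⟨⟨h1, h2⟩, h3⟩ := he
    have hdC := hD d hd
    have hxC := (F.ok d hd).x_mem hPC hdC
    refine ⟨⟨?_, ?_⟩, ?_⟩
    · rw [sum_tog (F.ok d hd) (mem_univ _) (mem_univ _) h]; exact h1
    · intro y hy
      rw [tog_of (by rintro rfl; exact hy hdC) (by rintro rfl; exact hy hxC)]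
      exact h2 y hy
    · rw [← h3]
      refine Tch_congr fun z hz => ?_
      rw [tog_of (by rintro rfl; exact hz (hcu _ hd)) (by
        rintro rfl
        exact hz (le_mem_cuni hκ (by rw [(F.ok d hd).lx]; exact hil)))]
  · intro d hd e he h
    rw [mem_filter, mem_pa] at he ⊢
    obtain ⟨⟨h1, h2⟩, h3⟩ := he
    have hdC := hD d hd
    have hxC := (F.ok d hd).x_mem hPC hdC
    refine ⟨⟨?_, ?_⟩, ?_⟩
    · rw [sum_gto (F.ok d hd) (mem_univ _) (mem_univ _) h]; exact h1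
    · intro y hy
      rw [gto_of (by rintro rfl; exact hy hdC) (by rintro rfl; exact hy hxC)]
      exact h2 y hy
    · rw [← h3]
      refine Tch_congr fun z hz => ?_
      rw [gto_of (by rintro rfl; exact hz (hcu _ hd)) (by
        rintro rfl
        exact hz (le_mem_cuni hκ (by rw [(F.ok d hd).lx]; exact hil)))]

end cross

end Pool.Agent.GaussPoset.Win.Ut
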