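import Pool.Agent.W_448ut_h16.UtA

/-!
# Factorisation over the untouched components (MP_448cb3_co, unit trick)

`US l κ S`: the elements all of whose labels on the levels `≤ l` are in `S`. `Tch l κ e`: the labels of
the components touched by the cross elements of the support of `e`. `XS i l κ S`: the window series of
the configurations which touch exactly `S`. `indiv_K`: if every component has grade at least `-1` and
the cross series of every nonempty `S` has grade at least `1`, then every component has the grade zero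
part `1` and nothing of grade `-1`.
-/

namespace Pool.Agent.GaussPoset.Win.Ut

set_option linter.unusedSectionVars false

open Finset I2

universe u

section pred

variable {P : Type u} [Fintype P] [PartialOrder P] [DecidableEq P] {r i : ℕ} {C D : Finset P}

/-- the window sum of a union with a condition on the first part -/
theorem ZC_union_pred (H : Gr P r) (hir : i ≤ r) (hC : Part i C) (hD : Part i D)
    (hCD : Disjoint C D) (p : (P → ℕ) → Prop) [DecidablePred p]
    (hp : ∀ g, Spt (C ∪ D) g → (p g ↔ p (rst C g))) (n : ℕ) :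
    ∑ g ∈ ((C ∪ D).piAntidiag n).filter p, tC i (C ∪ D) g =
      ∑ q ∈ antidiagonal n, (∑ e ∈ (C.piAntidiag q.1).filter p, tC i C e) * ZC i D q.2 := by
  have h1 : ∑ q ∈ antidiagonal n, (∑ e ∈ (C.piAntidiag q.1).filter p, tC i C e) * ZC i D q.2 =
      ∑ q ∈ (antidiagonal n).sigma
        (fun p' => ((C.piAntidiag p'.1).filter p) ×ˢ D.piAntidiag p'.2),
        tC i C q.2.1 * tC i D q.2.2 := by
    rw [Finset.sum_sigma]
    refine Finset.sum_congr rfl fun p' _ => ?_
    unfold ZC
    rw [Finset.sum_mul_sum, ← Finset.sum_product']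
  rw [h1]
  refine Finset.sum_bij'
    (i := fun g _ => (⟨(C.sum g, D.sum g), (rst C g, rst D g)⟩ :
      Σ _ : ℕ × ℕ, (P → ℕ) × (P → ℕ)))
    (j := fun q _ => q.2.1 + q.2.2) ?_ ?_ ?_ ?_ ?_
  · intro g hg
    rw [mem_filter] at hg
    obtain ⟨hg, hpg⟩ := hg
    have hs := spt_of_mem hg
    rw [mem_piAntidiag] at hg
    rw [mem_sigma]
    refine ⟨?_, ?_⟩
    · rw [Finset.HasAntidiagonal.mem_antidiagonal]
      simp only
      rw [← Finset.sum_union hCD]
      exact hg.1
    · rw [mem_product, mem_filter, mem_piAntidiag, mem_piAntidiag]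
      refine ⟨⟨⟨rst_sum C g, fun x hx => ?_⟩, (hp g hs).1 hpg⟩, ⟨rst_sum D g, fun x hx => ?_⟩⟩
      · by_contra h; exact hx (rst_spt C g x h)
      · by_contra h; exact hx (rst_spt D g x h)
  · rintro ⟨⟨a, b⟩, ⟨e, f⟩⟩ hq
    rw [mem_sigma, mem_product] at hq
    simp only at hq
    obtain ⟨hab, he, hf⟩ := hq
    rw [mem_filter] at he
    obtain ⟨he, hpe⟩ := he
    have hse := spt_of_mem he
    have hsf := spt_of_mem hf
    rw [mem_piAntidiag] at he hf
    rw [Finset.HasAntidiagonal.mem_antidiagonal] at hab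
    rw [mem_filter, mem_piAntidiag]
    simp only
    refine ⟨⟨?_, ?_⟩, ?_⟩
    · have h2 := sum_zero_of hCD hse
      have h3 := sum_zero_of hCD.symm hsf
      have h4 : C.sum (e + f) = a := by
        have : C.sum (e + f) = C.sum e + C.sum f := by
          rw [← Finset.sum_add_distrib]; rfl
        rw [this, he.1, h3, add_zero]
      have h5 : D.sum (e + f) = b := by
        have : D.sum (e + f) = D.sum e + D.sum f := by
          rw [← Finset.sum_add_distrib]; rfl
        rw [this, hf.1, h2, zero_add]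
      rw [Finset.sum_union hCD, h4, h5]
      exact hab
    · intro x hx
      by_contra h
      exact hx ((hse.add hsf) x h)
    · rw [hp _ (hse.add hsf), rst_left hCD hse hsf]
      exact hpe
  · intro g hg
    rw [mem_filter] at hg
    exact rst_add_rst hCD (spt_of_mem hg.1)
  · rintro ⟨⟨a, b⟩, ⟨e, f⟩⟩ hq
    rw [mem_sigma, mem_product] at hq
    simp only at hq
    obtain ⟨hab, he, hf⟩ := hq
    rw [mem_filter] at he
    obtain ⟨he, hpe⟩ := he
    have hse := spt_of_mem he
    have hsf := spt_of_mem hf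
    rw [mem_piAntidiag] at he hf
    have h2 := sum_zero_of hCD hse
    have h3 := sum_zero_of hCD.symm hsf
    have h4 : C.sum (e + f) = a := by
      have : C.sum (e + f) = C.sum e + C.sum f := by
        rw [← Finset.sum_add_distrib]; rfl
      rw [this, he.1, h3, add_zero]
    have h5 : D.sum (e + f) = b := by
      have : D.sum (e + f) = D.sum e + D.sum f := by
        rw [← Finset.sum_add_distrib]; rfl
      rw [this, hf.1, h2, zero_add]
    have h6 : rst C (e + f) = e := rst_left hCD hse hsf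
    have h7 : rst D (e + f) = f := by
      rw [add_comm e f]
      exact rst_left hCD.symm hsf hse
    simp only [h4, h5, h6, h7]
  · intro g hg
    rw [mem_filter] at hg
    have hs := spt_of_mem hg.1
    simp only
    rw [← tC_add H hir hC hD hCD (rst_spt C g) (rst_spt D g), rst_add_rst hCD hs]

end pred

variable {P : Type u} [Fintype P] [PartialOrder P] [DecidableEq P] {r i l : ℕ}

variable {ι : Type*} [DecidableEq ι] {κ : P → ι}

open Classical in
/-- the elements all of whose labels are in `S` -/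
noncomputable def US (l : ℕ) (κ : P → ι) (S : Finset ι) : Finset P :=
  univ.filter (fun x => ∀ y, x ≤ y → lev y ≤ l → κ y ∈ S)

open Classical in
/-- the components touched by the cross elements of a configuration -/
noncomputable def Tch (l : ℕ) (κ : P → ι) (e : P → ℕ) : Finset ι :=
  (univ.filter (fun y : P => lev y ≤ l ∧ ∃ z, z ∉ cuni l κ ∧ e z ≠ 0 ∧ z ≤ y)).image κ

open Classical in
/-- the window series of the configurations which touch exactly `S` -/
noncomputable def XC (i l : ℕ) (κ : P → ι) (S : Finset ι) (n : ℕ) : A :=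
  ∑ e ∈ ((US l κ S).piAntidiag n).filter (fun e => Tch l κ e = S), tC i (US l κ S) e

/-- the window series of the configurations which touch exactly `S` -/
noncomputable def XS (i l : ℕ) (κ : P → ι) (S : Finset ι) : PowerSeries A :=
  PowerSeries.mk (XC i l κ S)

lemma mem_US {S : Finset ι} {x : P} : x ∈ US l κ S ↔ ∀ y, x ≤ y → lev y ≤ l → κ y ∈ S := by
  classical
  unfold US
  simp

lemma mem_Tch {e : P → ℕ} {a : ι} : a ∈ Tch l κ e ↔
    ∃ y, (lev y ≤ l ∧ ∃ z, z ∉ cuni l κ ∧ e z ≠ 0 ∧ z ≤ y) ∧ κ y = a := by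
  classical
  unfold Tch
  simp

lemma US_singleton (a : ι) : US l κ {a} = cext l κ a := by
  ext x
  rw [mem_US, mem_cext]
  simp only [mem_singleton]

lemma US_mono {S T : Finset ι} (h : S ⊆ T) : US l κ S ⊆ US l κ T := by
  intro x hx
  rw [mem_US] at hx ⊢
  exact fun y hy hl => h (hx y hy hl)

theorem part_US (H : Gr P r) (hil : i ≤ l) (hκ : Split l κ) (S : Finset ι) :
    Part i (US l κ S) where
  up := by
    intro x y hx hxy
    rw [mem_US] at hx ⊢
    exact fun w hw hl => hx w (hxy.le.trans hw) hl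
  dn := by
    intro x y hy hl hxy
    have h1 := lev_uc H (mem_uc.2 hxy)
    rw [mem_US] at hy ⊢
    intro w hw hwl
    have h2 : κ x = κ w := hκ.le x hw (by omega)
    rw [← h2, hκ hxy (by omega)]
    exact hy y le_rfl (by omega)

lemma US_empty : US l κ (∅ : Finset ι) = ∅ := by
  rw [Finset.eq_empty_iff_forall_notMem]
  intro x hx
  rw [mem_US] at hx
  obtain ⟨y, hy, hy0⟩ := exists_top x
  exact absurd (hx y hy (by omega)) (notMem_empty _)

lemma disj_US {S : Finset ι} {a : ι} (ha : a ∉ S) : Disjoint (US l κ S) (cext l κ a) := by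
  rw [disjoint_left]
  intro x hx hx'
  rw [mem_US] at hx
  rw [mem_cext] at hx'
  obtain ⟨y, hy, hy0⟩ := exists_top x
  have h1 := hx y hy (by omega)
  rw [hx' y hy (by omega)] at h1
  exact ha h1

lemma disj_rest (s S : Finset ι) : Disjoint (US l κ S) ((s \ S).biUnion (cext l κ)) := by
  rw [disjoint_biUnion_right]
  intro a ha
  exact disj_US (mem_sdiff.1 ha).2

lemma cext_sub_US {S : Finset ι} {a : ι} (ha : a ∈ S) : cext l κ a ⊆ US l κ S := by
  intro x hx
  rw [mem_cext] at hx
  rw [mem_US]
  intro y hy hl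
  rw [hx y hy hl]
  exact ha

/-- the sites of `US` -/
lemma card_st_US (hil : i ≤ l) (hκ : Split l κ) (S : Finset ι) :
    (st i (US l κ S)).card = ∑ a ∈ S, (st i (cext l κ a)).card := by
  have h1 : st i (US l κ S) = S.biUnion (fun a => st i (cext l κ a)) := by
    ext x
    rw [mem_st, mem_biUnion]
    constructor
    · rintro ⟨h1, h2⟩
      rw [mem_US] at h1
      exact ⟨κ x, h1 x le_rfl (by omega), mem_st.2 ⟨mem_cext_of_le hκ (by omega) rfl, h2⟩⟩
    · rintro ⟨a, ha, hx⟩
      rw [mem_st] at hx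
      exact ⟨cext_sub_US ha hx.1, hx.2⟩
  rw [h1, card_biUnion]
  intro a _ b _ hab
  exact disjoint_of_subset_left (filter_subset _ _)
    (disjoint_of_subset_right (filter_subset _ _) (disj_cext hab))

/-- all sites -/
lemma st_all (hil : i ≤ l) (hκ : Split l κ) {S : Finset ι} :
    st i (US l κ S ∪ ((univ.image κ) \ S).biUnion (cext l κ)) = lv P i := by
  ext v
  rw [mem_st, mem_lv, mem_union, mem_biUnion]
  refine ⟨fun h => h.2, fun h => ⟨?_, h⟩⟩
  by_cases hv : κ v ∈ S
  · left
    exact cext_sub_US hv (mem_cext_of_le hκ (by omega) rfl)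
  · right
    exact ⟨κ v, mem_sdiff.2 ⟨mem_image_of_mem κ (mem_univ v), hv⟩,
      mem_cext_of_le hκ (by omega) rfl⟩

/-- a configuration touching exactly `S` is supported on `US S` and the other components -/
lemma Tch_spt {e : P → ℕ} {S : Finset ι} (h : Tch l κ e = S) :
    Spt (US l κ S ∪ ((univ.image κ) \ S).biUnion (cext l κ)) e := by
  intro x hx
  by_contra h0
  apply hx
  rw [mem_union, mem_biUnion]
  by_cases hc : x ∈ cuni l κ
  · unfold cuni at hc
    rw [mem_biUnion] at hc
    obtain ⟨a, ha, hxa⟩ := hc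
    by_cases haS : a ∈ S
    · exact Or.inl (cext_sub_US haS hxa)
    · exact Or.inr ⟨a, mem_sdiff.2 ⟨ha, haS⟩, hxa⟩
  · left
    rw [mem_US]
    intro y hy hl
    rw [← h, mem_Tch]
    exact ⟨y, ⟨hl, x, hc, h0, hy⟩, rfl⟩

lemma cext_sub_cuni {a : ι} (ha : a ∈ univ.image κ) : cext l κ a ⊆ cuni l κ := by
  intro x hx
  unfold cuni
  rw [mem_biUnion]
  exact ⟨a, ha, hx⟩

lemma Tch_rst {S : Finset ι} {g : P → ℕ}
    (hg : Spt (US l κ S ∪ ((univ.image κ) \ S).biUnion (cext l κ)) g) :
    Tch l κ g = Tch l κ (rst (US l κ S) g) := by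
  ext a
  rw [mem_Tch, mem_Tch]
  have key : ∀ z, z ∉ cuni l κ → (g z ≠ 0 ↔ rst (US l κ S) g z ≠ 0) := by
    intro z hz
    unfold rst
    by_cases h1 : z ∈ US l κ S
    · rw [if_pos h1]
    · rw [if_neg h1]
      refine ⟨fun h2 => ?_, fun h2 => absurd rfl h2⟩
      exfalso
      apply h2
      apply hg
      rw [mem_union, not_or]
      refine ⟨h1, fun h3 => hz ?_⟩
      rw [mem_biUnion] at h3
      obtain ⟨b, hb, hzb⟩ := h3
      exact cext_sub_cuni (mem_sdiff.1 hb).1 hzb
  constructor
  · rintro ⟨y, ⟨h1, z, h2, h3, h4⟩, h5⟩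
    exact ⟨y, ⟨h1, z, h2, (key z h2).1 h3, h4⟩, h5⟩
  · rintro ⟨y, ⟨h1, z, h2, h3, h4⟩, h5⟩
    exact ⟨y, ⟨h1, z, h2, (key z h2).2 h3, h4⟩, h5⟩

open Classical in
/-- the configurations touching exactly `S` factor -/
theorem sum_Tch (H : Gr P r) (hir : i ≤ r) (hil : i ≤ l) (hκ : Split l κ) (S : Finset ι) (n : ℕ) :
    ∑ e ∈ ((univ : Finset P).piAntidiag n).filter (fun e => Tch l κ e = S), trm i e =
      PowerSeries.coeff n (XS i l κ S * ∏ a ∈ (univ.image κ) \ S, ZS i (cext l κ a)) := by
  set D := ((univ.image κ) \ S).biUnion (cext l κ) with hD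
  set C := US l κ S with hC
  have hPC : Part i C := part_US H hil hκ S
  have hPD : Part i D := Part.biUnion _ _ fun a _ => part_cext H hil hκ a
  have hCD : Disjoint C D := disj_rest _ S
  have h1 : ∑ e ∈ ((univ : Finset P).piAntidiag n).filter (fun e => Tch l κ e = S), trm i e =
      ∑ e ∈ ((C ∪ D).piAntidiag n).filter (fun e => Tch l κ e = S), tC i (C ∪ D) e := by
    refine Finset.sum_congr ?_ fun e _ => ?_
    · ext e
      rw [mem_filter, mem_filter, mem_pa, mem_pa]
      constructor
      · rintro ⟨⟨h2, -⟩, h3⟩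
        exact ⟨⟨h2, Tch_spt h3⟩, h3⟩
      · rintro ⟨⟨h2, -⟩, h3⟩
        exact ⟨⟨h2, fun x hx => absurd (mem_univ x) hx⟩, h3⟩
    · unfold tC trm
      rw [st_all hil hκ]
  rw [h1, ZC_union_pred H hir hPC hPD hCD (fun e => Tch l κ e = S) (fun g hg => by
    rw [Tch_rst hg]), PowerSeries.coeff_mul]
  refine Finset.sum_congr rfl fun q _ => ?_
  rw [← ZS_biUnion H hir _ _ (fun a _ => part_cext H hil hκ a) (fun _ _ _ _ h => disj_cext h),
    coeff_ZS]
  unfold XS XC
  rw [PowerSeries.coeff_mk]

lemma Tch_zero : Tch l κ (0 : P → ℕ) = ∅ := by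
  rw [Finset.eq_empty_iff_forall_notMem]
  intro a ha
  rw [mem_Tch] at ha
  obtain ⟨y, ⟨-, z, -, h, -⟩, -⟩ := ha
  exact h rfl

lemma XS_empty (H : Gr P r) (hir : i ≤ r) : XS i l κ (∅ : Finset ι) = 1 := by
  classical
  ext1 n
  unfold XS XC
  rw [PowerSeries.coeff_mk, US_empty]
  rcases Nat.eq_zero_or_pos n with rfl | hn
  · rw [Finset.piAntidiag_zero, Finset.filter_singleton, if_pos Tch_zero, Finset.sum_singleton,
      tC_zero H hir, PowerSeries.coeff_one, if_pos rfl]
    simp [st]
  · rw [Finset.piAntidiag_empty_of_ne_zero (by omega), Finset.filter_empty, Finset.sum_empty,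
      PowerSeries.coeff_one, if_neg (by omega)]

lemma Tch_sub (e : P → ℕ) : Tch l κ e ⊆ univ.image κ := by
  intro a ha
  rw [mem_Tch] at ha
  obtain ⟨y, -, rfl⟩ := ha
  exact mem_image_of_mem κ (mem_univ y)

/-- the window series of the whole poset -/
noncomputable def TS (P : Type u) [Fintype P] [PartialOrder P] [DecidableEq P] (i : ℕ) :
    PowerSeries A := PowerSeries.mk fun n => ∑ e ∈ (univ : Finset P).piAntidiag n, trm i e

/-- (A1) FACTORISATION OVER THE UNTOUCHED COMPONENTS -/
theorem TS_eq (H : Gr P r) (hir : i ≤ r) (hil : i ≤ l) (hκ : Split l κ) :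
    TS P i = ∏ a ∈ univ.image κ, ZS i (cext l κ a) +
      ∑ S ∈ (univ.image κ).powerset.erase ∅,
        XS i l κ S * ∏ a ∈ (univ.image κ) \ S, ZS i (cext l κ a) := by
  classical
  have h0 : (∅ : Finset ι) ∈ (univ.image κ).powerset := mem_powerset.2 (empty_subset _)
  have h1 : ∏ a ∈ univ.image κ, ZS i (cext l κ a) =
      XS i l κ (∅ : Finset ι) * ∏ a ∈ (univ.image κ) \ ∅, ZS i (cext l κ a) := by
    rw [XS_empty H hir, one_mul, sdiff_empty]
  rw [h1, Finset.add_sum_erase _ (fun S => XS i l κ S *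
    ∏ a ∈ (univ.image κ) \ S, ZS i (cext l κ a)) h0]
  ext1 n
  rw [map_sum, Finset.sum_congr rfl fun S _ => (sum_Tch H hir hil hκ S n).symm]
  unfold TS
  rw [PowerSeries.coeff_mk]
  symm
  exact Finset.sum_fiberwise_of_maps_to (fun e _ => mem_powerset.2 (Tch_sub e)) _

lemma TS_wg (H : Gr P r) (hir : i ≤ r) : Wg (2 * (lv P i).card) (TS P i) := by
  intro n m h
  unfold TS
  rw [PowerSeries.coeff_mk]
  exact coeff_zero_of_dvd (dvd_sum_trm H hir n) (by omega)

lemma TS_form (H : Gr P r) (hir : i ≤ r) :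
    Gf (2 * (lv P i).card) (TS P i) = Polynomial.X ^ (lv P i).card := by
  ext m
  rw [coeff_Gf, Polynomial.coeff_X_pow]
  unfold TS
  rcases Nat.lt_trichotomy m (lv P i).card with h | h | h
  · rw [if_pos (by omega), if_neg (by omega), PowerSeries.coeff_mk]
    exact coeff_zero_of_dvd (dvd_sum_trm H hir _) h
  · rw [if_pos (by omega), if_pos h, PowerSeries.coeff_mk,
      show 2 * (lv P i).card - 2 * m = 0 by omega, Finset.piAntidiag_zero, Finset.sum_singleton]
    have h1 := tC_zero H hir (univ : Finset P)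
    have h2 : st i (univ : Finset P) = lv P i := by
      ext v
      rw [mem_st, mem_lv]
      simp
    have h3 : trm i (0 : P → ℕ) = tC i (univ : Finset P) (0 : P → ℕ) := by
      unfold tC trm
      rw [h2]
    rw [h3, h1, h2, h]
    unfold dd
    rw [PowerSeries.coeff_X_pow, if_pos rfl]
  · rw [if_neg (by omega), if_neg (by omega)]

/-- THE UNIT TRICK: every component has grade at least `-1`, the cross series of every nonempty set
of touched components has grade at least `1` (relative to the touched components); then every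
component satisfies all the identities of slope at most two. -/
theorem indiv_K (H : Gr P r) (hir : i ≤ r) (hil : i ≤ l) (hκ : Split l κ)
    (h1 : ∀ a ∈ univ.image κ, ∀ n,
      dd ^ ((st i (cext l κ a)).card - (n + 1) / 2) ∣ ZC i (cext l κ a) n)
    (h2 : ∀ S, S ⊆ univ.image κ → S.Nonempty → ∀ n, 1 ≤ n →
      dd ^ ((st i (US l κ S)).card - (n - 1) / 2) ∣ XC i l κ S n) :
    ∀ a ∈ univ.image κ, ∀ n, 1 ≤ n →
      dd ^ ((st i (cext l κ a)).card + 1 - (n + 1) / 2) ∣ ZC i (cext l κ a) n := by
  classical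
  have key := domain_arg (univ.image κ) (fun a => (st i (cext l κ a)).card)
    (fun a => ZS i (cext l κ a)) (XS i l κ) (TS P i) ?_ ?_ ?_ ?_ ?_ (TS_eq H hir hil hκ)
  · intro a ha n hn
    obtain ⟨g1, g2⟩ := key a ha
    apply dvd_of_coeff
    intro m hm
    rcases Nat.lt_or_ge (n + 2 * m) (2 * (st i (cext l κ a)).card) with h3 | h3
    · have := g1 n m h3
      rwa [coeff_ZS] at this
    · have h4 : n + 2 * m = 2 * (st i (cext l κ a)).card := by omega
      have h5 : (Gf (2 * (st i (cext l κ a)).card) (ZS i (cext l κ a))).coeff m =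
          (Polynomial.X ^ (st i (cext l κ a)).card : Polynomial ℤ).coeff m := by rw [g2]
      rw [coeff_Gf, if_pos (by omega), Polynomial.coeff_X_pow, if_neg (by omega),
        show 2 * (st i (cext l κ a)).card - 2 * m = n by omega, coeff_ZS] at h5
      exact h5
  · intro a ha
    rw [coeff_ZS, ZC_zero H hir]
    unfold dd
    rw [PowerSeries.coeff_X_pow, if_pos rfl]
  · intro a ha n m h
    rw [coeff_ZS]
    exact coeff_zero_of_dvd (h1 a ha n) (by omega)
  · intro S hS hne n m h
    rw [← card_st_US hil hκ S] at h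
    unfold XS
    rw [PowerSeries.coeff_mk]
    rcases Nat.eq_zero_or_pos n with rfl | hn
    · have h3 : XC i l κ S 0 = 0 := by
        unfold XC
        rw [Finset.piAntidiag_zero, Finset.filter_singleton, if_neg, Finset.sum_empty]
        rw [Tch_zero]
        exact hne.ne_empty.symm
      rw [h3, map_zero]
    · exact coeff_zero_of_dvd (h2 S hS hne n hn) (by omega)
  · rw [sum_card_st hil hκ]
    exact TS_wg H hir
  · rw [sum_card_st hil hκ]
    exact TS_form H hir

end Pool.Agent.GaussPoset.Win.Ut
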