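import Pool.Agent.W_448h2_h63.HA

/-!
# The swap of the unmatched elements (MP_448cb3_co, case B, Route T, block H)

`tC_ks`: the terms of the two states of the swap of the unmatched elements `y` (lower) and `u`
(upper) differ by the factor `xx ^ 3`. `XC_toggle2`: the sum over the toggles and the swaps.
-/

namespace Pool.Agent.GaussPoset.Win.H2

set_option linter.unusedSectionVars false
set_option linter.unusedVariables false

open Finset I2 K2 Ut

universe u

variable {P : Type u} [Fintype P] [PartialOrder P] [DecidableEq P] {r i l : ℕ} {e : P → ℕ}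

section stat

variable {y u : P}

lemma ks_lev (H : Gr P r) (hly : lev y = i + 1) (hlu : lev u + 1 = i) {x : P}
    (hx : x ∈ uc y ∪ dc u) : lev x = i := by
  rcases mem_union.1 hx with h1 | h1
  · have := lev_uc H h1
    omega
  · have := lev_dc H h1
    omega

lemma ks_ne (hly : lev y = i + 1) (hlu : lev u + 1 = i) : y ≠ u := by
  rintro rfl
  omega

lemma kf_y : (e ∘ Equiv.swap y u) y = e u := by
  simp

lemma kf_u : (e ∘ Equiv.swap y u) u = e y := by
  simp

lemma kf_ne {x : P} (h1 : x ≠ y) (h2 : x ≠ u) : (e ∘ Equiv.swap y u) x = e x := by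
  simp only [Function.comp]
  rw [Equiv.swap_apply_of_ne_of_ne h1 h2]

/-- a label of the level of the sites or of a far level is not changed -/
lemma kf_lev (hly : lev y = i + 1) (hlu : lev u + 1 = i) {x : P} (h1 : lev x ≠ i + 1)
    (h2 : lev x + 1 ≠ i) : (e ∘ Equiv.swap y u) x = e x := by
  refine kf_ne ?_ ?_
  · rintro rfl
    exact h1 hly
  · rintro rfl
    exact h2 hlu

lemma kf_kf : (e ∘ Equiv.swap y u) ∘ Equiv.swap y u = e := by
  funext x
  simp

/-- `FD` in the two states -/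
lemma ks_FD (H : Gr P r) (hly : lev y = i + 1) (hlu : lev u + 1 = i) (h : KsA y u e) (z : P)
    (hz : i ≤ lev z) : FD e z ↔ FD (e ∘ Equiv.swap y u) z ∨ z ∈ uc y := by
  by_cases h1 : z ∈ uc y
  · refine ⟨fun _ => Or.inr h1, fun _ => ⟨y, mem_uc.1 h1, ?_⟩⟩
    rw [h.s0 z (mem_union_left _ h1), h.ey]
    norm_num
  have key : FD e z ↔ FD (e ∘ Equiv.swap y u) z := by
    by_cases h2 : z = y
    · subst h2
      constructor
      · rintro ⟨t, ht, hlt⟩
        rw [h.dy t (mem_dc.2 ht)] at hlt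
        omega
      · rintro ⟨t, ht, hlt⟩
        have := lev_uc H (mem_uc.2 ht)
        rw [kf_lev (x := t) hly hlu (by omega) (by omega), h.dy t (mem_dc.2 ht)] at hlt
        omega
    · unfold FD
      refine exists_congr fun z' => and_congr_right fun hz' => ?_
      have hl := lev_uc H (mem_uc.2 hz')
      rw [kf_ne h2 (by rintro rfl; omega), kf_ne (by
        rintro rfl
        exact h1 (mem_uc.2 hz')) (by rintro rfl; omega)]
  rw [key]
  exact ⟨Or.inl, fun h2 => h2.resolve_right h1⟩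

lemma ks_FD_uc (H : Gr P r) (hly : lev y = i + 1) (hlu : lev u + 1 = i) (h : KsA y u e) {z : P}
    (hz : z ∈ uc y ∪ dc u) : ¬ FD (e ∘ Equiv.swap y u) z := by
  have hl0 := ks_lev H hly hlu hz
  rintro ⟨t, ht, hlt⟩
  have hl := lev_uc H (mem_uc.2 ht)
  by_cases h1 : t = y
  · rw [h1, kf_y, h.eu] at hlt
    omega
  · rw [kf_ne h1 (by rintro rfl; omega), h.lo z hz t (mem_dc.2 ht) h1] at hlt
    omega

/-- the lower element has no larger lower cover -/
lemma ks_FD_y (h : KsC y u e) : ¬ FD e y := by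
  rintro ⟨t, ht, hlt⟩
  rw [h.dy t (mem_dc.2 ht)] at hlt
  omega

/-- `GU` below the window in the two states -/
lemma ks_GU (H : Gr P r) (hly : lev y = i + 1) (hlu : lev u + 1 = i) (cy : (uc y).card = 2)
    (h : KsA y u e) (z : P) (hz : i < lev z) :
    GU (e ∘ Equiv.swap y u) z ↔ GU e z ∨ z = y := by
  by_cases h1 : z = y
  · subst h1
    refine ⟨fun _ => Or.inr rfl, fun _ => ?_⟩
    obtain ⟨x, hx⟩ : (uc z).Nonempty := by
      rw [← card_pos, cy]
      norm_num
    refine ⟨x, mem_uc.1 hx, ?_⟩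
    rw [kf_y, h.eu]
    exact Nat.zero_le _
  have key : GU (e ∘ Equiv.swap y u) z ↔ GU e z := by
    by_cases h2 : z ∈ dc y
    · have hl := lev_dc H h2
      constructor
      · intro _
        exact ⟨y, mem_dc.1 h2, by rw [h.dy z h2]; exact Nat.zero_le _⟩
      · intro _
        refine ⟨y, mem_dc.1 h2, ?_⟩
        rw [kf_lev (x := z) hly hlu (by omega) (by omega), h.dy z h2]
        exact Nat.zero_le _
    · unfold GU
      refine exists_congr fun w => and_congr_right fun hw => ?_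
      have hl := lev_uc H (mem_uc.2 hw)
      rw [kf_ne h1 (by rintro rfl; omega), kf_ne (by
        rintro rfl
        exact h2 (mem_dc.2 hw)) (by rintro rfl; omega)]
  rw [key]
  exact ⟨Or.inl, fun h2 => h2.resolve_right h1⟩

lemma ks_GU_y (h : KsA y u e) : ¬ GU e y := by
  rintro ⟨x, hx, hle⟩
  rw [h.ey, h.s0 x (mem_union_left _ (mem_uc.2 hx))] at hle
  omega

/-- `FU` in the two states -/
lemma ks_FU (H : Gr P r) (hly : lev y = i + 1) (hlu : lev u + 1 = i) (h : KsA y u e) (z : P)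
    (hz : lev z ≤ i) : FU (e ∘ Equiv.swap y u) z ↔ FU e z ∨ z ∈ dc u := by
  by_cases h1 : z ∈ dc u
  · refine ⟨fun _ => Or.inr h1, fun _ => ⟨u, mem_dc.1 h1, ?_⟩⟩
    have := ks_lev H hly hlu (mem_union_right (uc y) h1)
    rw [kf_lev (x := z) hly hlu (by omega) (by omega), h.s0 z (mem_union_right _ h1), kf_u, h.ey]
    norm_num
  have key : FU (e ∘ Equiv.swap y u) z ↔ FU e z := by
    by_cases h2 : z = u
    · subst h2
      constructor
      · rintro ⟨t, ht, hlt⟩
        have := lev_uc H (mem_uc.2 ht)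
        rw [kf_lev (x := t) hly hlu (by omega) (by omega), h.uu t (mem_uc.2 ht)] at hlt
        omega
      · rintro ⟨t, ht, hlt⟩
        rw [h.uu t (mem_uc.2 ht)] at hlt
        omega
    · unfold FU
      refine exists_congr fun w => and_congr_right fun hw => ?_
      have hl := lev_uc H (mem_uc.2 hw)
      rw [kf_ne (by rintro rfl; omega) h2, kf_ne (by rintro rfl; omega) (by
        rintro rfl
        exact h1 (mem_dc.2 hw))]
  rw [key]
  exact ⟨Or.inl, fun h2 => h2.resolve_right h1⟩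

lemma ks_FU_dc (H : Gr P r) (hly : lev y = i + 1) (hlu : lev u + 1 = i) (h : KsA y u e) {z : P}
    (hz : z ∈ uc y ∪ dc u) : ¬ FU e z := by
  rintro ⟨t, ht, hlt⟩
  by_cases h1 : t = u
  · rw [h1, h.eu] at hlt
    omega
  · rw [h.up z hz t (mem_uc.2 ht) h1] at hlt
    omega

lemma ks_FU_u (h : KsC y u e) : ¬ FU e u := by
  rintro ⟨t, ht, hlt⟩
  rw [h.uu t (mem_uc.2 ht)] at hlt
  omega

/-- `GD` above the window in the two states -/
lemma ks_GD (H : Gr P r) (hly : lev y = i + 1) (hlu : lev u + 1 = i) (cu : (dc u).card = 2)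
    (h : KsA y u e) (z : P) (hz : lev z < i) :
    GD e z ↔ GD (e ∘ Equiv.swap y u) z ∨ z = u := by
  by_cases h1 : z = u
  · subst h1
    refine ⟨fun _ => Or.inr rfl, fun _ => ?_⟩
    obtain ⟨x, hx⟩ : (dc z).Nonempty := by
      rw [← card_pos, cu]
      norm_num
    refine ⟨x, mem_dc.1 hx, ?_⟩
    rw [h.eu]
    exact Nat.zero_le _
  have key : GD e z ↔ GD (e ∘ Equiv.swap y u) z := by
    by_cases h2 : z ∈ uc u
    · have hl := lev_uc H h2
      constructor
      · intro _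
        refine ⟨u, mem_uc.1 h2, ?_⟩
        rw [kf_lev (x := z) hly hlu (by omega) (by omega), h.uu z h2]
        exact Nat.zero_le _
      · intro _
        exact ⟨u, mem_uc.1 h2, by rw [h.uu z h2]; exact Nat.zero_le _⟩
    · unfold GD
      refine exists_congr fun w => and_congr_right fun hw => ?_
      have hl := lev_uc H (mem_uc.2 hw)
      rw [kf_ne (by rintro rfl; omega) h1, kf_ne (by rintro rfl; omega) (by
        rintro rfl
        exact h2 (mem_uc.2 hw))]
  rw [key]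
  exact ⟨Or.inl, fun h2 => h2.resolve_right h1⟩

lemma ks_GD_u (H : Gr P r) (hly : lev y = i + 1) (hlu : lev u + 1 = i) (h : KsA y u e) :
    ¬ GD (e ∘ Equiv.swap y u) u := by
  rintro ⟨x, hx, hle⟩
  have h1 : x ∈ uc y ∪ dc u := mem_union_right _ (mem_dc.2 hx)
  have := ks_lev H hly hlu h1
  rw [kf_u, h.ey, kf_lev (x := x) hly hlu (by omega) (by omega), h.s0 x h1] at hle
  omega

open Classical in
/-- THE TERMS of the two states of the swap of the unmatched elements -/
theorem tC_ks (H : Gr P r) (hly : lev y = i + 1) (hlu : lev u + 1 = i) (cy : (uc y).card = 2)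
    (cu : (dc u).card = 2) {C : Finset P} (hC : Part i C) (he : Spt C e) (hyC : y ∈ C)
    (huC : u ∈ C) (h : KsA y u e) :
    tC i C e = xx ^ 3 * tC i C (e ∘ Equiv.swap y u) := by
  set f := e ∘ Equiv.swap y u with hf
  have hsite : ∀ z, z ∈ uc y ∪ dc u → lev z = i := fun z hz => ks_lev H hly hlu hz
  have hFD : ∀ z, i < lev z → (FD e z ↔ FD f z) := by
    intro z hz
    rw [ks_FD H hly hlu h z hz.le]
    constructor
    · rintro (h1 | h1)
      · exact h1
      · have := hsite z (mem_union_left _ h1)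
        omega
    · exact Or.inl
  have hFU : ∀ z, lev z < i → (FU e z ↔ FU f z) := by
    intro z hz
    rw [hf, ks_FU H hly hlu h z hz.le]
    constructor
    · exact Or.inl
    · rintro (h1 | h1)
      · exact h1
      · have := hsite z (mem_union_right _ h1)
        omega
  have hFDy : ¬ FD f y := fun h1 => ks_FD_y h.toKsC ((hFD y (by omega)).2 h1)
  have hFUu : ¬ FU e u := ks_FU_u h.toKsC
  have hAdmL : AdmL i e ↔ AdmL i f := by
    unfold AdmL
    refine forall_congr' fun z => forall_congr' fun hz => not_congr ?_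
    rw [hFD z hz, hf, ks_GU H hly hlu cy h z hz]
    constructor
    · rintro ⟨h1, h2⟩
      exact ⟨h1, Or.inl h2⟩
    · rintro ⟨h1, h2 | h2⟩
      · exact ⟨h1, h2⟩
      · rw [h2] at h1
        exact absurd h1 hFDy
  have hAdmU : AdmU i e ↔ AdmU i f := by
    unfold AdmU
    refine forall_congr' fun z => forall_congr' fun hz => not_congr ?_
    rw [← hFU z hz, ks_GD H hly hlu cu h z hz]
    constructor
    · rintro ⟨h1, h2 | h2⟩
      · exact ⟨h1, h2⟩
      · rw [h2] at h1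
        exact absurd h1 hFUu
    · rintro ⟨h1, h2⟩
      exact ⟨h1, Or.inl h2⟩
  have haL : aL i e = aL i f := by
    unfold aL
    congr 1
    ext z
    rw [mem_filter, mem_filter]
    exact and_congr_right fun _ => and_congr_right fun hz => hFD z hz
  have haU : aU i e = aU i f := by
    unfold aU
    congr 1
    ext z
    rw [mem_filter, mem_filter]
    exact and_congr_right fun _ => and_congr_right fun hz => hFU z hz
  have hpL : pL i e = pL i f + 1 := by
    unfold pL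
    have h1 : univ.filter (fun z : P => i < lev z ∧ ¬ FD e z ∧ ¬ GU e z) =
        insert y (univ.filter (fun z : P => i < lev z ∧ ¬ FD f z ∧ ¬ GU f z)) := by
      ext z
      rw [mem_insert, mem_filter, mem_filter]
      constructor
      · rintro ⟨-, h1, h2, h3⟩
        by_cases h4 : z = y
        · exact Or.inl h4
        · refine Or.inr ⟨mem_univ _, h1, fun h5 => h2 ((hFD z h1).2 h5), fun h5 => ?_⟩
          rw [hf, ks_GU H hly hlu cy h z h1] at h5
          rcases h5 with h5 | h5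
          · exact h3 h5
          · exact h4 h5
      · rintro (h1 | ⟨-, h1, h2, h3⟩)
        · subst h1
          exact ⟨mem_univ _, by omega, ks_FD_y h.toKsC, ks_GU_y h⟩
        · exact ⟨mem_univ _, h1, fun h4 => h2 ((hFD z h1).1 h4), fun h4 => h3 (by
            rw [hf, ks_GU H hly hlu cy h z h1]
            exact Or.inl h4)⟩
    rw [h1, card_insert_of_notMem]
    rw [mem_filter]
    rintro ⟨-, h2, h3, h4⟩
    exact h4 ((ks_GU H hly hlu cy h y h2).2 (Or.inr rfl))
  have hpU : pU i f = pU i e + 1 := by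
    unfold pU
    have h1 : univ.filter (fun z : P => lev z < i ∧ ¬ FU f z ∧ ¬ GD f z) =
        insert u (univ.filter (fun z : P => lev z < i ∧ ¬ FU e z ∧ ¬ GD e z)) := by
      ext z
      rw [mem_insert, mem_filter, mem_filter]
      constructor
      · rintro ⟨-, h1, h2, h3⟩
        by_cases h4 : z = u
        · exact Or.inl h4
        · refine Or.inr ⟨mem_univ _, h1, fun h5 => h2 ((hFU z h1).1 h5), fun h5 => ?_⟩
          rw [ks_GD H hly hlu cu h z h1] at h5
          rcases h5 with h5 | h5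
          · exact h3 h5
          · exact h4 h5
      · rintro (h1 | ⟨-, h1, h2, h3⟩)
        · subst h1
          exact ⟨mem_univ _, by omega, fun h5 => hFUu ((hFU z (by omega)).2 h5),
            ks_GD_u H hly hlu h⟩
        · exact ⟨mem_univ _, h1, fun h4 => h2 ((hFU z h1).2 h4), fun h4 => h3 (by
            rw [ks_GD H hly hlu cu h z h1]
            exact Or.inl h4)⟩
    rw [h1, card_insert_of_notMem]
    rw [mem_filter]
    rintro ⟨-, h2, h3, h4⟩
    exact h4 ((ks_GD H hly hlu cu h u h2).2 (Or.inr rfl))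
  have hAL : AL i e = AL i f ∪ uc y := by
    ext v
    rw [mem_union, NormD_mem_AL, NormD_mem_AL]
    constructor
    · rintro ⟨h1, h2⟩
      rw [ks_FD H hly hlu h v h1.ge] at h2
      rcases h2 with h2 | h2
      · exact Or.inl ⟨h1, h2⟩
      · exact Or.inr h2
    · rintro (⟨h1, h2⟩ | h1)
      · exact ⟨h1, (ks_FD H hly hlu h v h1.ge).2 (Or.inl h2)⟩
      · have h2 := hsite v (mem_union_left _ h1)
        exact ⟨h2, (ks_FD H hly hlu h v h2.ge).2 (Or.inr h1)⟩
  have hAU : AU i f = AU i e ∪ dc u := by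
    ext v
    rw [mem_union, NormD_mem_AU, NormD_mem_AU]
    constructor
    · rintro ⟨h1, h2⟩
      rw [hf, ks_FU H hly hlu h v h1.le] at h2
      rcases h2 with h2 | h2
      · exact Or.inl ⟨h1, h2⟩
      · exact Or.inr h2
    · rintro (⟨h1, h2⟩ | h1)
      · exact ⟨h1, (ks_FU H hly hlu h v h1.le).2 (Or.inl h2)⟩
      · have h2 := hsite v (mem_union_right _ h1)
        exact ⟨h2, (ks_FU H hly hlu h v h2.le).2 (Or.inr h1)⟩
  have hLf : ∀ v, v ∈ uc y ∪ dc u → v ∉ AL i f := by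
    intro v hv h1
    rw [NormD_mem_AL] at h1
    exact ks_FD_uc H hly hlu h hv h1.2
  have hUe : ∀ v, v ∈ uc y ∪ dc u → v ∉ AU i e := by
    intro v hv h1
    rw [NormD_mem_AU] at h1
    exact ks_FU_dc H hly hlu h hv h1.2
  have hcL : (AL i e).card = (AL i f).card + 2 := by
    rw [hAL, card_union_of_disjoint, cy]
    rw [disjoint_left]
    exact fun v hv hv' => hLf v (mem_union_left _ hv') hv
  have hcU : (AU i f).card = (AU i e).card + 2 := by
    rw [hAU, card_union_of_disjoint, cu]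
    rw [disjoint_left]
    exact fun v hv hv' => hUe v (mem_union_right _ hv') hv
  have hdis : Disjoint (AL i e) (AU i e) ↔ Disjoint (AL i f) (AU i f) := by
    rw [hAL, hAU, disjoint_union_left, disjoint_union_right]
    constructor
    · rintro ⟨h1, -⟩
      refine ⟨h1, ?_⟩
      rw [disjoint_left]
      exact fun v hv hv' => hLf v (mem_union_right _ hv') hv
    · rintro ⟨h1, -⟩
      refine ⟨h1, ?_⟩
      rw [disjoint_left]
      exact fun v hv hv' => hUe v (mem_union_left _ hv) hv'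
  unfold tC
  by_cases hd : Disjoint (AL i e) (AU i e)
  swap
  · rw [if_neg hd, if_neg (fun h => hd (hdis.2 h)), mul_zero]
  rw [if_pos hd, if_pos (hdis.1 hd)]
  obtain ⟨N, hN1, hN2⟩ : ∃ N, (st i C).card - (AL i e).card - (AU i e).card = N ∧
      (st i C).card - (AL i f).card - (AU i f).card = N := by
    refine ⟨_, rfl, ?_⟩
    rw [hcL, hcU]
    omega
  rw [hN1, hN2]
  unfold cw
  by_cases ha : AdmL i e ∧ AdmU i e
  · rw [if_pos ha, if_pos ⟨hAdmL.1 ha.1, hAdmU.1 ha.2⟩, haL, hpL, haU, hpU, hcL]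
    have h1 : (xx : A) * xi = 1 := xx_mul_xi
    have h2 : xx ^ 3 * (xx ^ aL i f * xi ^ (aU i f + (pU i e + 1)) *
        dd ^ (pL i f + (pU i e + 1)) * (xx ^ (AL i f).card * dd ^ N)) =
        xx ^ aL i f * xi ^ (aU i f + pU i e) * dd ^ (pL i f + 1 + pU i e) *
          (xx ^ ((AL i f).card + 2) * dd ^ N) * (xx * xi) := by ring
    rw [h2, h1, mul_one]
  · rw [if_neg ha, if_neg (fun h => ha ⟨hAdmL.2 h.1, hAdmU.2 h.2⟩)]
    ring

end stat

section states

variable {y u : P}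

/-- the surroundings are read through `KRd` only -/
lemma KsC.of_rd {f : P → ℕ} (h : KsC y u e)
    (hef : ∀ x, KRd y u x → x ≠ y → x ≠ u → f x = e x) (hly : lev y = i + 1)
    (hlu : lev u + 1 = i) (H : Gr P r) : KsC y u f where
  s0 := fun x hx => by
    have hl := ks_lev H hly hlu hx
    rw [hef x (Or.inr (Or.inr (Or.inl hx))) (by rintro rfl; omega) (by rintro rfl; omega)]
    exact h.s0 x hx
  lo := fun x hx w hw hne => by
    have hl := ks_lev H hly hlu hx
    have hl' := lev_dc H hw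
    rw [hef w (Or.inr (Or.inr (Or.inr (Or.inl ⟨x, hx, Or.inl hw⟩)))) hne (by
      rintro rfl; omega)]
    exact h.lo x hx w hw hne
  up := fun x hx v hv hne => by
    have hl := ks_lev H hly hlu hx
    have hl' := lev_uc H hv
    rw [hef v (Or.inr (Or.inr (Or.inr (Or.inl ⟨x, hx, Or.inr hv⟩)))) (by
      rintro rfl; omega) hne]
    exact h.up x hx v hv hne
  dy := fun z hz => by
    have hl' := lev_dc H hz
    rw [hef z (Or.inr (Or.inr (Or.inr (Or.inr (Or.inl hz))))) (by rintro rfl; omega) (by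
      rintro rfl; omega)]
    exact h.dy z hz
  uu := fun v hv => by
    have hl' := lev_uc H hv
    rw [hef v (Or.inr (Or.inr (Or.inr (Or.inr (Or.inr hv))))) (by rintro rfl; omega) (by
      rintro rfl; omega)]
    exact h.uu v hv

lemma KsA.of_rd {f : P → ℕ} (h : KsA y u e) (hef : ∀ x, KRd y u x → f x = e x)
    (hly : lev y = i + 1) (hlu : lev u + 1 = i) (H : Gr P r) : KsA y u f :=
  ⟨h.toKsC.of_rd (fun x hx _ _ => hef x hx) hly hlu H,
    by rw [hef y (Or.inl rfl)]; exact h.ey, by rw [hef u (Or.inr (Or.inl rfl))]; exact h.eu⟩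

lemma KsB.of_rd {f : P → ℕ} (h : KsB y u e) (hef : ∀ x, KRd y u x → f x = e x)
    (hly : lev y = i + 1) (hlu : lev u + 1 = i) (H : Gr P r) : KsB y u f :=
  ⟨h.toKsC.of_rd (fun x hx _ _ => hef x hx) hly hlu H,
    by rw [hef y (Or.inl rfl)]; exact h.ey, by rw [hef u (Or.inr (Or.inl rfl))]; exact h.eu⟩

lemma KsA.swap (H : Gr P r) (hly : lev y = i + 1) (hlu : lev u + 1 = i) (h : KsA y u e) :
    KsB y u (e ∘ Equiv.swap y u) :=
  ⟨h.toKsC.of_rd (fun x _ h1 h2 => kf_ne h1 h2) hly hlu H, by rw [kf_y]; exact h.eu,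
    by rw [kf_u]; exact h.ey⟩

lemma KsB.swap (H : Gr P r) (hly : lev y = i + 1) (hlu : lev u + 1 = i) (h : KsB y u e) :
    KsA y u (e ∘ Equiv.swap y u) :=
  ⟨h.toKsC.of_rd (fun x _ h1 h2 => kf_ne h1 h2) hly hlu H, by rw [kf_y]; exact h.eu,
    by rw [kf_u]; exact h.ey⟩

/-- the swap does not change the total -/
lemma sum_kf {C : Finset P} (hy : y ∈ C) (hu : u ∈ C) :
    C.sum (e ∘ Equiv.swap y u) = C.sum e := by
  refine Finset.sum_equiv (Equiv.swap y u) (fun x => ?_) (fun x _ => rfl)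
  by_cases h1 : x = y
  · rw [h1, Equiv.swap_apply_left]
    exact ⟨fun _ => hu, fun _ => hy⟩
  by_cases h2 : x = u
  · rw [h2, Equiv.swap_apply_right]
    exact ⟨fun _ => hy, fun _ => hu⟩
  rw [Equiv.swap_apply_of_ne_of_ne h1 h2]

end states

section two

variable {D Y : Finset P} {sw : P → Sw P} {ku : P → P}

/-- the swaps of unmatched elements, indexed by the lower elements -/
structure FamK (P : Type u) [Fintype P] [PartialOrder P] [DecidableEq P] (i : ℕ) (Y : Finset P)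
    (ku : P → P) : Prop where
  ly : ∀ y ∈ Y, lev y = i + 1
  lu : ∀ y ∈ Y, lev (ku y) + 1 = i
  cy : ∀ y ∈ Y, (uc y).card = 2
  cu : ∀ y ∈ Y, (dc (ku y)).card = 2

/-- state `A` of the combined family -/
def SA (sw : P → Sw P) (ku : P → P) (a : P ⊕ P) (e : P → ℕ) : Prop :=
  Sum.elim (fun d => StA d (sw d) e) (fun y => KsA y (ku y) e) a

/-- state `B` of the combined family -/
def SB (sw : P → Sw P) (ku : P → P) (a : P ⊕ P) (e : P → ℕ) : Prop :=
  Sum.elim (fun d => StB d (sw d) e) (fun y => KsB y (ku y) e) a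

/-- from `A` to `B` -/
def TT (sw : P → Sw P) (ku : P → P) (a : P ⊕ P) (e : P → ℕ) : P → ℕ :=
  Sum.elim (fun d => tog d (sw d) e) (fun y => e ∘ Equiv.swap y (ku y)) a

/-- from `B` to `A` -/
def UU (sw : P → Sw P) (ku : P → P) (a : P ⊕ P) (e : P → ℕ) : P → ℕ :=
  Sum.elim (fun d => gto d (sw d) e) (fun y => e ∘ Equiv.swap y (ku y)) a

theorem switches2 (H : Gr P r) (F : Fam P i D sw) (G : FamK P i Y ku) {Ω : Finset (P → ℕ)}
    (hDY : ∀ d ∈ D, ∀ y ∈ Y, ¬ Rd d (sw d) y ∧ ¬ Rd d (sw d) (ku y) ∧ ¬ KRd y (ku y) d ∧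
      ¬ KRd y (ku y) (sw d).x)
    (hYY : ∀ y ∈ Y, ∀ y' ∈ Y, y ≠ y' → ¬ KRd y' (ku y') y ∧ ¬ KRd y' (ku y') (ku y))
    (hA : ∀ d ∈ D, ∀ e ∈ Ω, StA d (sw d) e → tog d (sw d) e ∈ Ω)
    (hB : ∀ d ∈ D, ∀ e ∈ Ω, StB d (sw d) e → gto d (sw d) e ∈ Ω)
    (hK : ∀ y ∈ Y, ∀ e ∈ Ω, e ∘ Equiv.swap y (ku y) ∈ Ω) :
    Switches Ω (D.disjSum Y) (SA sw ku) (SB sw ku) (TT sw ku) (UU sw ku) := by
  -- the swap of `y` does not disturb a toggle
  have k1 : ∀ d ∈ D, ∀ y ∈ Y, ∀ e : P → ℕ, ∀ x, Rd d (sw d) x →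
      (e ∘ Equiv.swap y (ku y)) x = e x := by
    intro d hd y hy e x hx
    obtain ⟨h1, h2, -, -⟩ := hDY d hd y hy
    exact kf_ne (by rintro rfl; exact h1 hx) (by rintro rfl; exact h2 hx)
  have k2 : ∀ d ∈ D, ∀ y ∈ Y, ∀ e : P → ℕ, ∀ x, KRd y (ku y) x →
      tog d (sw d) e x = e x := by
    intro d hd y hy e x hx
    obtain ⟨-, -, h1, h2⟩ := hDY d hd y hy
    exact tog_of (by rintro rfl; exact h1 hx) (by rintro rfl; exact h2 hx)
  have k3 : ∀ y ∈ Y, ∀ y' ∈ Y, y ≠ y' → ∀ e : P → ℕ, ∀ x, KRd y' (ku y') x →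
      (e ∘ Equiv.swap y (ku y)) x = e x := by
    intro y hy y' hy' hne e x hx
    obtain ⟨h1, h2⟩ := hYY y hy y' hy' hne
    exact kf_ne (by rintro rfl; exact h1 hx) (by rintro rfl; exact h2 hx)
  refine ⟨?_, ?_, ?_, ?_, ?_⟩
  · rintro (d | y) ha e he h
    · rw [inl_mem_disjSum] at ha
      exact ⟨StA.tog H (F.ok d ha) (F.px d ha) (F.qx d ha) h, StA.back (F.ok d ha) h,
        hA d ha e he h⟩
    · rw [inr_mem_disjSum] at ha
      exact ⟨KsA.swap H (G.ly y ha) (G.lu y ha) h, kf_kf, hK y ha e he⟩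
  · rintro (d | y) ha e he h
    · rw [inl_mem_disjSum] at ha
      exact ⟨StB.gto H (F.ok d ha) (F.px d ha) (F.qx d ha) h, StB.back (F.ok d ha) h,
        hB d ha e he h⟩
    · rw [inr_mem_disjSum] at ha
      exact ⟨KsB.swap H (G.ly y ha) (G.lu y ha) h, kf_kf, hK y ha e he⟩
  · rintro (d | y) ha e he h h'
    · have e1 := StA.d2 h
      have e2 := StB.d1 h'
      omega
    · have e1 := KsA.ey h
      have e2 := KsB.ey h'
      omega
  · rintro (d | y) ha (d' | y') hb hne e he h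
    · rw [inl_mem_disjSum] at ha hb
      exact (ke H (F.ok d ha) (F.ok d' hb) (fun q => hne (by rw [q])) h).1
    · rw [inl_mem_disjSum] at ha
      rw [inr_mem_disjSum] at hb
      have h1 := k2 d ha y' hb e
      exact ⟨fun h2 => KsA.of_rd h2 (fun x hx => (h1 x hx).symm) (G.ly y' hb) (G.lu y' hb) H,
        fun h2 => KsA.of_rd h2 h1 (G.ly y' hb) (G.lu y' hb) H⟩
    · rw [inr_mem_disjSum] at ha
      rw [inl_mem_disjSum] at hb
      have h1 := k1 d' hb y ha e
      exact ⟨fun h2 => StA.of_rd h2 (fun x hx => (h1 x hx).symm), fun h2 => StA.of_rd h2 h1⟩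
    · rw [inr_mem_disjSum] at ha hb
      have h1 := k3 y ha y' hb (fun q => hne (by rw [q])) e
      exact ⟨fun h2 => KsA.of_rd h2 (fun x hx => (h1 x hx).symm) (G.ly y' hb) (G.lu y' hb) H,
        fun h2 => KsA.of_rd h2 h1 (G.ly y' hb) (G.lu y' hb) H⟩
  · rintro (d | y) ha (d' | y') hb hne e he h
    · rw [inl_mem_disjSum] at ha hb
      exact (ke H (F.ok d ha) (F.ok d' hb) (fun q => hne (by rw [q])) h).2
    · rw [inl_mem_disjSum] at ha
      rw [inr_mem_disjSum] at hb
      have h1 := k2 d ha y' hb e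
      exact ⟨fun h2 => KsB.of_rd h2 (fun x hx => (h1 x hx).symm) (G.ly y' hb) (G.lu y' hb) H,
        fun h2 => KsB.of_rd h2 h1 (G.ly y' hb) (G.lu y' hb) H⟩
    · rw [inr_mem_disjSum] at ha
      rw [inl_mem_disjSum] at hb
      have h1 := k1 d' hb y ha e
      exact ⟨fun h2 => StB.of_rd h2 (fun x hx => (h1 x hx).symm), fun h2 => StB.of_rd h2 h1⟩
    · rw [inr_mem_disjSum] at ha hb
      have h1 := k3 y ha y' hb (fun q => hne (by rw [q])) e
      exact ⟨fun h2 => KsB.of_rd h2 (fun x hx => (h1 x hx).symm) (G.ly y' hb) (G.lu y' hb) H,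
        fun h2 => KsB.of_rd h2 h1 (G.ly y' hb) (G.lu y' hb) H⟩

open Classical in
/-- THE SUM OVER THE TOGGLES AND THE SWAPS -/
theorem toggle2_dvd (H : Gr P r) (F : Fam P i D sw) (G : FamK P i Y ku) {C : Finset P}
    (hC : Part i C) {Ω : Finset (P → ℕ)} (hΩ : ∀ e ∈ Ω, Spt C e) (hYC : ∀ y ∈ Y, y ∈ C ∧ ku y ∈ C)
    (hDY : ∀ d ∈ D, ∀ y ∈ Y, ¬ Rd d (sw d) y ∧ ¬ Rd d (sw d) (ku y) ∧ ¬ KRd y (ku y) d ∧
      ¬ KRd y (ku y) (sw d).x)
    (hYY : ∀ y ∈ Y, ∀ y' ∈ Y, y ≠ y' → ¬ KRd y' (ku y') y ∧ ¬ KRd y' (ku y') (ku y))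
    (hA : ∀ d ∈ D, ∀ e ∈ Ω, StA d (sw d) e → tog d (sw d) e ∈ Ω)
    (hB : ∀ d ∈ D, ∀ e ∈ Ω, StB d (sw d) e → gto d (sw d) e ∈ Ω)
    (hK : ∀ y ∈ Y, ∀ e ∈ Ω, e ∘ Equiv.swap y (ku y) ∈ Ω) (N : ℕ)
    (hN : ∀ Q, Q ⊆ D → ∀ R, R ⊆ Y → dd ^ N ∣ dd ^ (Q.card + R.card) *
      ∑ e ∈ Ω.filter (fun e => (∀ d ∈ D, ¬ StA d (sw d) e ∧ (StB d (sw d) e ↔ d ∈ Q)) ∧
        ∀ y ∈ Y, ¬ KsA y (ku y) e ∧ (KsB y (ku y) e ↔ y ∈ R)), tC i C e) :
    dd ^ N ∣ ∑ e ∈ Ω, tC i C e := by
  refine (switches2 H F G hDY hYY hA hB hK).dvd (xx ^ 3) dd dd_dvd_cube (fun e => tC i C e) ?_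
    (dd ^ N) ?_
  · rintro (d | y) ha e he h
    · rw [inl_mem_disjSum] at ha
      exact tC_tog H (F.ok d ha) (F.ww d ha) hC (hΩ e he) h
    · rw [inr_mem_disjSum] at ha
      exact tC_ks H (G.ly y ha) (G.lu y ha) (G.cy y ha) (G.cu y ha) hC (hΩ e he) (hYC y ha).1
        (hYC y ha).2 h
  · intro Q hQ
    have hL : Q.toLeft ⊆ D := by
      intro d hd
      rw [mem_toLeft] at hd
      have := hQ hd
      rwa [inl_mem_disjSum] at this
    have hR : Q.toRight ⊆ Y := by
      intro y hy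
      rw [mem_toRight] at hy
      have := hQ hy
      rwa [inr_mem_disjSum] at this
    have h1 := hN Q.toLeft hL Q.toRight hR
    rw [card_toLeft_add_card_toRight] at h1
    have h2 : Ω.filter (fun e => (∀ d ∈ D, ¬ StA d (sw d) e ∧ (StB d (sw d) e ↔ d ∈ Q.toLeft)) ∧
        ∀ y ∈ Y, ¬ KsA y (ku y) e ∧ (KsB y (ku y) e ↔ y ∈ Q.toRight)) =
        Ω.filter (fun e => ∀ a ∈ D.disjSum Y, ¬ SA sw ku a e ∧ (SB sw ku a e ↔ a ∈ Q)) := by
      refine filter_congr fun e _ => ?_
      constructor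
      · rintro ⟨h3, h4⟩ (d | y) ha
        · rw [inl_mem_disjSum] at ha
          have h5 := h3 d ha
          rw [mem_toLeft] at h5
          exact h5
        · rw [inr_mem_disjSum] at ha
          have h5 := h4 y ha
          rw [mem_toRight] at h5
          exact h5
      · intro h3
        refine ⟨fun d hd => ?_, fun y hy => ?_⟩
        · rw [mem_toLeft]
          exact h3 (Sum.inl d) (inl_mem_disjSum.2 hd)
        · rw [mem_toRight]
          exact h3 (Sum.inr y) (inr_mem_disjSum.2 hy)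
    rw [h2] at h1
    convert h1

end two

section cross

variable {ι : Type*} [DecidableEq ι] {κ : P → ι} {D Y : Finset P} {sw : P → Sw P} {ku : P → P}
  {S : Finset ι}

open Classical in
/-- THE SUM OVER THE TOGGLES AND THE SWAPS for the cross series -/
theorem XC_toggle2 (H : Gr P r) (hil : i + 1 ≤ l) (hκ : Split l κ) (F : Fam P i D sw)
    (G : FamK P i Y ku) (hD : ∀ d ∈ D, d ∈ US l κ S) (hcu : ∀ d ∈ D, d ∈ cuni l κ)
    (hY : ∀ y ∈ Y, y ∈ US l κ S ∧ ku y ∈ US l κ S)
    (hDY : ∀ d ∈ D, ∀ y ∈ Y, ¬ Rd d (sw d) y ∧ ¬ Rd d (sw d) (ku y) ∧ ¬ KRd y (ku y) d ∧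
      ¬ KRd y (ku y) (sw d).x)
    (hYY : ∀ y ∈ Y, ∀ y' ∈ Y, y ≠ y' → ¬ KRd y' (ku y') y ∧ ¬ KRd y' (ku y') (ku y)) (n N : ℕ)
    (hN : ∀ Q, Q ⊆ D → ∀ R, R ⊆ Y → dd ^ N ∣ dd ^ (Q.card + R.card) *
      ∑ e ∈ (((US l κ S).piAntidiag n).filter (fun e => Ut.Tch l κ e = S)).filter
        (fun e => (∀ d ∈ D, ¬ StA d (sw d) e ∧ (StB d (sw d) e ↔ d ∈ Q)) ∧
          ∀ y ∈ Y, ¬ KsA y (ku y) e ∧ (KsB y (ku y) e ↔ y ∈ R)),
        tC i (US l κ S) e) :
    dd ^ N ∣ XC i l κ S n := by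
  have hil' : i ≤ l := by omega
  have hPC : Part i (US l κ S) := part_US H hil' hκ S
  unfold XC
  refine toggle2_dvd H F G hPC (fun e he => spt_of_mem (mem_filter.1 he).1) hY hDY hYY
    ?_ ?_ ?_ N hN
  · intro d hd e he h
    rw [mem_filter, mem_pa] at he ⊢
    obtain ⟨⟨h1, h2⟩, h3⟩ := he
    have hdC := hD d hd
    have hxC := (F.ok d hd).x_mem hPC hdC
    refine ⟨⟨?_, ?_⟩, ?_⟩
    · rw [sum_tog (F.ok d hd) (mem_univ _) (mem_univ _) h]; exact h1
    · intro y hy
      rw [tog_of (by rintro rfl; exact hy hdC) (by rintro rfl; exact hy hxC)]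
      exact h2 y hy
    · rw [← h3]
      refine Tch_congr fun z hz => ?_
      rw [tog_of (by rintro rfl; exact hz (hcu _ hd)) (by
        rintro rfl
        exact hz (le_mem_cuni hκ (by rw [(F.ok d hd).lx]; exact hil')))]
  · intro d hd e he h
    rw [mem_filter, mem_pa] at he ⊢
    obtain ⟨⟨h1, h2⟩, h3⟩ := he
    have hdC := hD d hd
    have hxC := (F.ok d hd).x_mem hPC hdC
    refine ⟨⟨?_, ?_⟩, ?_⟩
    · rw [sum_gto (F.ok d hd) (mem_univ _) (mem_univ _) h]; exact h1
    · intro y hy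
      rw [gto_of (by rintro rfl; exact hy hdC) (by rintro rfl; exact hy hxC)]
      exact h2 y hy
    · rw [← h3]
      refine Tch_congr fun z hz => ?_
      rw [gto_of (by rintro rfl; exact hz (hcu _ hd)) (by
        rintro rfl
        exact hz (le_mem_cuni hκ (by rw [(F.ok d hd).lx]; exact hil')))]
  · intro y hy e he
    rw [mem_filter, mem_pa] at he ⊢
    obtain ⟨⟨h1, h2⟩, h3⟩ := he
    have h4 := hY y hy
    have h5 := G.ly y hy
    have h6 := G.lu y hy
    refine ⟨⟨?_, ?_⟩, ?_⟩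
    · rw [sum_kf (mem_univ _) (mem_univ _)]; exact h1
    · intro x hx
      rw [kf_ne (by rintro rfl; exact hx h4.1) (by rintro rfl; exact hx h4.2)]
      exact h2 x hx
    · rw [← h3]
      refine Tch_congr fun z hz => ?_
      rw [kf_ne (by
        rintro rfl
        exact hz (le_mem_cuni hκ (by omega))) (by
        rintro rfl
        exact hz (le_mem_cuni hκ (by omega)))]

end cross

end Pool.Agent.GaussPoset.Win.H2
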