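import Pool.Agent.W_448i2_h61.IG

/-!
# Weights and lowest forms (MP_448cb3_co, unit trick)

The energy variable has weight `1`, the variable `dd` has weight `2`. `Wg w f`: every monomial of `f`
has weight at least `w`; `Gf w f`: the form of weight `w`, as a polynomial in `dd`.
-/

namespace Pool.Agent.GaussPoset.Win.Ut

set_option linter.unusedSectionVars false

open Finset

/-- every monomial has weight at least `w` -/
def Wg (w : ℕ) (f : PowerSeries A) : Prop :=
  ∀ n m, n + 2 * m < w → PowerSeries.coeff m (PowerSeries.coeff n f : A) = 0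

/-- the form of weight `w` -/
noncomputable def Gf (w : ℕ) (f : PowerSeries A) : Polynomial ℤ :=
  ∑ m ∈ Finset.range (w / 2 + 1),
    Polynomial.monomial m (PowerSeries.coeff m (PowerSeries.coeff (w - 2 * m) f : A))

lemma coeff_Gf (w : ℕ) (f : PowerSeries A) (m : ℕ) : (Gf w f).coeff m =
    if 2 * m ≤ w then PowerSeries.coeff m (PowerSeries.coeff (w - 2 * m) f : A) else 0 := by
  unfold Gf
  rw [Polynomial.finsetSum_coeff]
  simp only [Polynomial.coeff_monomial]
  rw [Finset.sum_ite_eq']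
  simp only [Finset.mem_range]
  by_cases h : 2 * m ≤ w
  · rw [if_pos (by omega), if_pos h]
  · rw [if_neg (by omega), if_neg h]

lemma coeff_coeff_mul (f g : PowerSeries A) (n m : ℕ) :
    PowerSeries.coeff m (PowerSeries.coeff n (f * g) : A) =
      ∑ q ∈ antidiagonal m, ∑ p ∈ antidiagonal n,
        PowerSeries.coeff q.1 (PowerSeries.coeff p.1 f : A) *
          PowerSeries.coeff q.2 (PowerSeries.coeff p.2 g : A) := by
  rw [PowerSeries.coeff_mul, map_sum]
  rw [Finset.sum_congr rfl fun p _ => PowerSeries.coeff_mul m (PowerSeries.coeff p.1 f : A)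
    (PowerSeries.coeff p.2 g : A)]
  rw [Finset.sum_comm]

lemma Wg.zero (f : PowerSeries A) : Wg 0 f := fun n m h => absurd h (by omega)

lemma Wg.mono {w w' : ℕ} {f : PowerSeries A} (h : Wg w' f) (hw : w ≤ w') : Wg w f :=
  fun n m hn => h n m (by omega)

lemma Wg.mul {a b : ℕ} {f g : PowerSeries A} (hf : Wg a f) (hg : Wg b g) : Wg (a + b) (f * g) := by
  intro n m h
  rw [coeff_coeff_mul]
  refine Finset.sum_eq_zero fun q hq => Finset.sum_eq_zero fun p hp => ?_
  rw [HasAntidiagonal.mem_antidiagonal] at hq hp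
  by_cases h1 : p.1 + 2 * q.1 < a
  · rw [hf _ _ h1, zero_mul]
  · rw [hg p.2 q.2 (by omega), mul_zero]

lemma Wg.add {a : ℕ} {f g : PowerSeries A} (hf : Wg a f) (hg : Wg a g) : Wg a (f + g) := by
  intro n m h
  rw [map_add, map_add, hf n m h, hg n m h, add_zero]

lemma Gf_add (w : ℕ) (f g : PowerSeries A) : Gf w (f + g) = Gf w f + Gf w g := by
  ext m
  rw [Polynomial.coeff_add, coeff_Gf, coeff_Gf, coeff_Gf]
  split_ifs
  · rw [map_add, map_add]
  · rw [add_zero]

lemma Gf_zero (w : ℕ) : Gf w (0 : PowerSeries A) = 0 := by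
  ext m
  rw [coeff_Gf, Polynomial.coeff_zero]
  split_ifs
  · rw [map_zero, map_zero]
  · rfl

lemma Gf_sum {ι : Type*} (w : ℕ) (s : Finset ι) (f : ι → PowerSeries A) :
    Gf w (∑ a ∈ s, f a) = ∑ a ∈ s, Gf w (f a) := by
  classical
  induction s using Finset.induction_on with
  | empty => rw [Finset.sum_empty, Finset.sum_empty, Gf_zero]
  | insert a s ha ih => rw [Finset.sum_insert ha, Finset.sum_insert ha, Gf_add, ih]

lemma Gf_eq_zero {w w' : ℕ} {f : PowerSeries A} (h : Wg w' f) (hw : w < w') : Gf w f = 0 := by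
  ext m
  rw [coeff_Gf, Polynomial.coeff_zero]
  split_ifs with h1
  · exact h _ _ (by omega)
  · rfl

lemma Gf_mul {a b : ℕ} {f g : PowerSeries A} (hf : Wg a f) (hg : Wg b g) :
    Gf (a + b) (f * g) = Gf a f * Gf b g := by
  ext m
  rw [coeff_Gf, Polynomial.coeff_mul]
  simp only [coeff_Gf]
  by_cases hm : 2 * m ≤ a + b
  · rw [if_pos hm, coeff_coeff_mul]
    refine Finset.sum_congr rfl fun q hq => ?_
    rw [HasAntidiagonal.mem_antidiagonal] at hq
    by_cases h1 : 2 * q.1 ≤ a ∧ 2 * q.2 ≤ b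
    · rw [if_pos h1.1, if_pos h1.2]
      rw [Finset.sum_eq_single_of_mem (a - 2 * q.1, b - 2 * q.2)]
      · rw [HasAntidiagonal.mem_antidiagonal]
        simp only
        omega
      · intro p hp hne
        rw [HasAntidiagonal.mem_antidiagonal] at hp
        by_cases h2 : p.1 + 2 * q.1 < a
        · rw [hf _ _ h2, zero_mul]
        · have h3 : p.1 ≠ a - 2 * q.1 := by
            intro h4
            apply hne
            ext
            · exact h4
            · show p.2 = b - 2 * q.2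
              omega
          rw [hg p.2 q.2 (by omega), mul_zero]
    · rw [Finset.sum_eq_zero]
      · rcases not_and_or.1 h1 with h2 | h2
        · rw [if_neg h2, zero_mul]
        · rw [if_neg h2, mul_zero]
      · intro p hp
        rw [HasAntidiagonal.mem_antidiagonal] at hp
        by_cases h2 : p.1 + 2 * q.1 < a
        · rw [hf _ _ h2, zero_mul]
        · rw [hg p.2 q.2 (by omega), mul_zero]
  · rw [if_neg hm]
    symm
    refine Finset.sum_eq_zero fun q hq => ?_
    rw [HasAntidiagonal.mem_antidiagonal] at hq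
    by_cases h3 : 2 * q.1 ≤ a
    · rw [if_neg (c := 2 * q.2 ≤ b) (by omega), mul_zero]
    · rw [if_neg h3, zero_mul]

lemma Gf_one : Gf 0 (1 : PowerSeries A) = 1 := by
  unfold Gf
  simp

lemma Wg_prod {ι : Type*} (s : Finset ι) (w : ι → ℕ) (f : ι → PowerSeries A)
    (h : ∀ a ∈ s, Wg (w a) (f a)) :
    Wg (∑ a ∈ s, w a) (∏ a ∈ s, f a) ∧ Gf (∑ a ∈ s, w a) (∏ a ∈ s, f a) =
      ∏ a ∈ s, Gf (w a) (f a) := by
  classical
  induction s using Finset.induction_on with
  | empty => simpa using ⟨Wg.zero _, Gf_one⟩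
  | insert a s ha ih =>
    have h1 := ih fun x hx => h x (mem_insert_of_mem hx)
    have h2 := h a (mem_insert_self _ _)
    rw [Finset.sum_insert ha, Finset.prod_insert ha, Finset.prod_insert ha]
    refine ⟨h2.mul h1.1, ?_⟩
    rw [Gf_mul h2 h1.1, h1.2]

/-- the domain argument -/
theorem domain_arg {ι : Type*} [DecidableEq ι] (s : Finset ι) (b : ι → ℕ) (V : ι → PowerSeries A)
    (X : Finset ι → PowerSeries A) (T : PowerSeries A)
    (hV0 : ∀ a ∈ s, PowerSeries.coeff (b a) (PowerSeries.coeff 0 (V a) : A) = 1)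
    (h1 : ∀ a ∈ s, Wg (2 * b a - 1) (V a))
    (hX : ∀ S, S ⊆ s → S.Nonempty → Wg (2 * ∑ a ∈ S, b a + 1) (X S))
    (hT : Wg (2 * ∑ a ∈ s, b a) T)
    (hT0 : Gf (2 * ∑ a ∈ s, b a) T = Polynomial.X ^ ∑ a ∈ s, b a)
    (hsum : T = ∏ a ∈ s, V a + ∑ S ∈ s.powerset.erase ∅, X S * ∏ a ∈ s \ S, V a) :
    ∀ a ∈ s, Wg (2 * b a) (V a) ∧ Gf (2 * b a) (V a) = Polynomial.X ^ b a := by
  classical
  set w : ι → ℕ := fun a => if Wg (2 * b a) (V a) then 2 * b a else 2 * b a - 1 with hw
  have hw1 : ∀ a, w a ≤ 2 * b a := by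
    intro a
    simp only [hw]
    split_ifs <;> omega
  have hw2 : ∀ a ∈ s, Wg (w a) (V a) := by
    intro a ha
    simp only [hw]
    split_ifs with h
    · exact h
    · exact h1 a ha
  have hne : ∀ a ∈ s, Gf (w a) (V a) ≠ 0 := by
    intro a ha h0
    by_cases h : Wg (2 * b a) (V a)
    · have e : w a = 2 * b a := by simp only [hw]; rw [if_pos h]
      rw [e] at h0
      have h3 := congrArg (fun p => Polynomial.coeff p (b a)) h0
      simp only [Polynomial.coeff_zero] at h3
      rw [coeff_Gf, if_pos le_rfl, Nat.sub_self, hV0 a ha] at h3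
      exact absurd h3 (by norm_num)
    · have e : w a = 2 * b a - 1 := by simp only [hw]; rw [if_neg h]
      rw [e] at h0
      apply h
      intro n m hnm
      rcases Nat.lt_or_ge (n + 2 * m) (2 * b a - 1) with h3 | h3
      · exact h1 a ha n m h3
      · have h4 := congrArg (fun p => Polynomial.coeff p m) h0
        simp only [Polynomial.coeff_zero] at h4
        rw [coeff_Gf, if_pos (by omega), show 2 * b a - 1 - 2 * m = n by omega] at h4
        exact h4
  have hprod := Wg_prod s w V hw2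
  have hpne : Gf (∑ a ∈ s, w a) (∏ a ∈ s, V a) ≠ 0 := by
    rw [hprod.2]
    exact Finset.prod_ne_zero_iff.2 hne
  -- the cross terms
  have hcross : Gf (∑ a ∈ s, w a) (∑ S ∈ s.powerset.erase ∅, X S * ∏ a ∈ s \ S, V a) = 0 := by
    rw [Gf_sum]
    refine Finset.sum_eq_zero fun S hS => ?_
    rw [mem_erase, mem_powerset] at hS
    have h3 := hX S hS.2 (nonempty_iff_ne_empty.2 hS.1)
    have h4 := (Wg_prod (s \ S) w V fun a ha => hw2 a (mem_sdiff.1 ha).1).1
    refine Gf_eq_zero (h3.mul h4) ?_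
    have h5 : ∑ a ∈ s \ S, w a + ∑ a ∈ S, w a = ∑ a ∈ s, w a := Finset.sum_sdiff hS.2
    have h6 : ∑ a ∈ S, w a ≤ 2 * ∑ a ∈ S, b a := by
      rw [Finset.mul_sum]
      exact Finset.sum_le_sum fun a _ => hw1 a
    omega
  have hTW : Gf (∑ a ∈ s, w a) T = Gf (∑ a ∈ s, w a) (∏ a ∈ s, V a) := by
    rw [hsum, Gf_add, hcross, add_zero]
  have hall : ∀ a ∈ s, Wg (2 * b a) (V a) := by
    by_contra hcon
    push Not at hcon
    obtain ⟨a, ha, hna⟩ := hcon
    have hba : b a ≠ 0 := by
      intro h0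
      apply hna
      rw [h0]
      exact Wg.zero _
    have hlt : ∑ a ∈ s, w a < 2 * ∑ a ∈ s, b a := by
      rw [Finset.mul_sum]
      refine Finset.sum_lt_sum (fun a _ => hw1 a) ⟨a, ha, ?_⟩
      simp only [hw]
      rw [if_neg hna]
      omega
    rw [Gf_eq_zero hT hlt] at hTW
    exact hpne hTW.symm
  have hwb : ∀ a ∈ s, w a = 2 * b a := by
    intro a ha
    simp only [hw]
    rw [if_pos (hall a ha)]
  have hW : ∑ a ∈ s, w a = 2 * ∑ a ∈ s, b a := by
    rw [Finset.mul_sum]
    exact Finset.sum_congr rfl hwb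
  have hX2 : Polynomial.X ^ (∑ a ∈ s, b a) = ∏ a ∈ s, Gf (2 * b a) (V a) := by
    rw [← hT0, ← hW, hTW, hprod.2]
    exact Finset.prod_congr rfl fun a ha => by rw [hwb a ha]
  intro a ha
  refine ⟨hall a ha, ?_⟩
  have hdvd : Gf (2 * b a) (V a) ∣ (Polynomial.X : Polynomial ℤ) ^ (∑ a ∈ s, b a) := by
    rw [hX2]
    exact Finset.dvd_prod_of_mem (fun a => Gf (2 * b a) (V a)) ha
  obtain ⟨k, -, u, hu⟩ := (dvd_prime_pow Polynomial.prime_X _).1 hdvd
  -- `Gf * u = X ^ k`
  have hG : Gf (2 * b a) (V a) = Polynomial.X ^ k * ((u⁻¹ : (Polynomial ℤ)ˣ) : Polynomial ℤ) := by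
    rw [← hu, mul_assoc, Units.mul_inv, mul_one]
  obtain ⟨c, -, hc⟩ := Polynomial.isUnit_iff.1 (u⁻¹ : (Polynomial ℤ)ˣ).isUnit
  rw [← hc] at hG
  have h3 : (Gf (2 * b a) (V a)).coeff (b a) =
      (Polynomial.X ^ k * Polynomial.C c : Polynomial ℤ).coeff (b a) := by rw [hG]
  rw [coeff_Gf, if_pos le_rfl, Nat.sub_self, hV0 a ha, Polynomial.coeff_X_pow_mul',
    Polynomial.coeff_C] at h3
  by_cases h4 : k ≤ b a
  · rw [if_pos h4] at h3
    by_cases h5 : b a - k = 0
    · rw [if_pos h5] at h3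
      have h6 : k = b a := by omega
      rw [hG, h6, ← h3, map_one, mul_one]
    · rw [if_neg h5] at h3
      exact absurd h3 (by norm_num)
  · rw [if_neg h4] at h3
    exact absurd h3 (by norm_num)

end Pool.Agent.GaussPoset.Win.Ut
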