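import Pool.Agent.W_448ut_h16.UtB

/-!
# The unit trick without a bound for the components (MP_448cb3_co)

`domain_arg'`, `indiv_X`: the hypothesis about the grade of the single components is not needed; the
bound for the cross series is enough.
-/

namespace Pool.Agent.GaussPoset.Win.Ut

set_option linter.unusedSectionVars false

open Finset I2

universe u

/-- the domain argument, nothing is assumed about the weights of the factors -/
theorem domain_arg' {ι : Type*} [DecidableEq ι] (s : Finset ι) (b : ι → ℕ) (V : ι → PowerSeries A)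
    (X : Finset ι → PowerSeries A) (T : PowerSeries A)
    (hV0 : ∀ a ∈ s, PowerSeries.coeff (b a) (PowerSeries.coeff 0 (V a) : A) = 1)
    (hX : ∀ S, S ⊆ s → S.Nonempty → Wg (2 * ∑ a ∈ S, b a + 1) (X S))
    (hT : Wg (2 * ∑ a ∈ s, b a) T)
    (hT0 : Gf (2 * ∑ a ∈ s, b a) T = Polynomial.X ^ ∑ a ∈ s, b a)
    (hsum : T = ∏ a ∈ s, V a + ∑ S ∈ s.powerset.erase ∅, X S * ∏ a ∈ s \ S, V a) :
    ∀ a ∈ s, Wg (2 * b a) (V a) ∧ Gf (2 * b a) (V a) = Polynomial.X ^ b a := by
  classical
  set w : ι → ℕ := fun a => Nat.findGreatest (fun w => Wg w (V a)) (2 * b a) with hw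
  have hw1 : ∀ a, w a ≤ 2 * b a := fun a => Nat.findGreatest_le _
  have hw2 : ∀ a, Wg (w a) (V a) := fun a =>
    Nat.findGreatest_spec (P := fun w => Wg w (V a)) (Nat.zero_le (2 * b a)) (Wg.zero _)
  have hne : ∀ a ∈ s, Gf (w a) (V a) ≠ 0 := by
    intro a ha h0
    rcases Nat.lt_or_ge (w a) (2 * b a) with h | h
    · have h1 : ¬ Wg (w a + 1) (V a) :=
        Nat.findGreatest_is_greatest (P := fun w => Wg w (V a)) (Nat.lt_succ_self _) (by omega)
      apply h1
      intro n m hnm
      rcases Nat.lt_or_ge (n + 2 * m) (w a) with h3 | h3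
      · exact hw2 a n m h3
      · have h4 := congrArg (fun p => Polynomial.coeff p m) h0
        simp only [Polynomial.coeff_zero] at h4
        rw [coeff_Gf, if_pos (by omega), show w a - 2 * m = n by omega] at h4
        exact h4
    · have e : w a = 2 * b a := le_antisymm (hw1 a) h
      rw [e] at h0
      have h3 := congrArg (fun p => Polynomial.coeff p (b a)) h0
      simp only [Polynomial.coeff_zero] at h3
      rw [coeff_Gf, if_pos le_rfl, Nat.sub_self, hV0 a ha] at h3
      exact absurd h3 (by norm_num)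
  have hprod := Wg_prod s w V fun a _ => hw2 a
  have hpne : Gf (∑ a ∈ s, w a) (∏ a ∈ s, V a) ≠ 0 := by
    rw [hprod.2]
    exact Finset.prod_ne_zero_iff.2 hne
  have hcross : Gf (∑ a ∈ s, w a) (∑ S ∈ s.powerset.erase ∅, X S * ∏ a ∈ s \ S, V a) = 0 := by
    rw [Gf_sum]
    refine Finset.sum_eq_zero fun S hS => ?_
    rw [mem_erase, mem_powerset] at hS
    have h3 := hX S hS.2 (nonempty_iff_ne_empty.2 hS.1)
    have h4 := (Wg_prod (s \ S) w V fun a _ => hw2 a).1
    refine Gf_eq_zero (h3.mul h4) ?_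
    have h5 : ∑ a ∈ s \ S, w a + ∑ a ∈ S, w a = ∑ a ∈ s, w a := Finset.sum_sdiff hS.2
    have h6 : ∑ a ∈ S, w a ≤ 2 * ∑ a ∈ S, b a := by
      rw [Finset.mul_sum]
      exact Finset.sum_le_sum fun a _ => hw1 a
    omega
  have hTW : Gf (∑ a ∈ s, w a) T = Gf (∑ a ∈ s, w a) (∏ a ∈ s, V a) := by
    rw [hsum, Gf_add, hcross, add_zero]
  have hwb : ∀ a ∈ s, w a = 2 * b a := by
    intro a ha
    by_contra hna
    have h1 := hw1 a
    have hlt : ∑ a ∈ s, w a < 2 * ∑ a ∈ s, b a := by
      rw [Finset.mul_sum]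
      exact Finset.sum_lt_sum (fun a _ => hw1 a) ⟨a, ha, by omega⟩
    rw [Gf_eq_zero hT hlt] at hTW
    exact hpne hTW.symm
  refine domain_arg s b V X T hV0 (fun a ha => ?_) hX hT hT0 hsum
  have h1 := hw2 a
  rw [hwb a ha] at h1
  exact h1.mono (by omega)

variable {P : Type u} [Fintype P] [PartialOrder P] [DecidableEq P] {r i l : ℕ}

variable {ι : Type*} [DecidableEq ι] {κ : P → ι}

lemma Xs_wg (hil : i ≤ l) (hκ : Split l κ) {S : Finset ι} (hne : S.Nonempty)
    (h2 : ∀ n, 1 ≤ n → dd ^ ((st i (US l κ S)).card - (n - 1) / 2) ∣ XC i l κ S n) :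
    Wg (2 * ∑ a ∈ S, (st i (cext l κ a)).card + 1) (XS i l κ S) := by
  classical
  intro n m h
  rw [← card_st_US hil hκ S] at h
  unfold XS
  rw [PowerSeries.coeff_mk]
  rcases Nat.eq_zero_or_pos n with rfl | hn
  · have h3 : XC i l κ S 0 = 0 := by
      unfold XC
      rw [Finset.piAntidiag_zero, Finset.filter_singleton, if_neg, Finset.sum_empty]
      rw [Tch_zero]
      exact hne.ne_empty.symm
    rw [h3, map_zero]
  · exact coeff_zero_of_dvd (h2 n hn) (by omega)

/-- THE UNIT TRICK, the hypothesis about the single components is not needed: if the cross series of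
every nonempty set of touched components has grade at least `1` (relative to the touched components),
then every component satisfies all the identities of slope at most two. -/
theorem indiv_X (H : Gr P r) (hir : i ≤ r) (hil : i ≤ l) (hκ : Split l κ)
    (h2 : ∀ S, S ⊆ univ.image κ → S.Nonempty → ∀ n, 1 ≤ n →
      dd ^ ((st i (US l κ S)).card - (n - 1) / 2) ∣ XC i l κ S n) :
    ∀ a ∈ univ.image κ, ∀ n, 1 ≤ n →
      dd ^ ((st i (cext l κ a)).card + 1 - (n + 1) / 2) ∣ ZC i (cext l κ a) n := by
  classical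
  have key := domain_arg' (univ.image κ) (fun a => (st i (cext l κ a)).card)
    (fun a => ZS i (cext l κ a)) (XS i l κ) (TS P i) ?_ ?_ ?_ ?_ (TS_eq H hir hil hκ)
  · intro a ha n hn
    obtain ⟨g1, g2⟩ := key a ha
    apply dvd_of_coeff
    intro m hm
    rcases Nat.lt_or_ge (n + 2 * m) (2 * (st i (cext l κ a)).card) with h3 | h3
    · have := g1 n m h3
      rwa [coeff_ZS] at this
    · have h4 : n + 2 * m = 2 * (st i (cext l κ a)).card := by omega
      have h5 : (Gf (2 * (st i (cext l κ a)).card) (ZS i (cext l κ a))).coeff m =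
          (Polynomial.X ^ (st i (cext l κ a)).card : Polynomial ℤ).coeff m := by rw [g2]
      rw [coeff_Gf, if_pos (by omega), Polynomial.coeff_X_pow, if_neg (by omega),
        show 2 * (st i (cext l κ a)).card - 2 * m = n by omega, coeff_ZS] at h5
      exact h5
  · intro a ha
    rw [coeff_ZS, ZC_zero H hir]
    unfold dd
    rw [PowerSeries.coeff_X_pow, if_pos rfl]
  · intro S hS hne
    exact Xs_wg hil hκ hne (h2 S hS hne)
  · rw [sum_card_st hil hκ]
    exact TS_wg H hir
  · rw [sum_card_st hil hκ]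
    exact TS_form H hir

end Pool.Agent.GaussPoset.Win.Ut
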