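import Pool.Agent.W_448ut_h16.UtC

/-!
# Switches: the abstract summation (MP_448cb3_co, unit trick)

A label `a` of a configuration may be in state `A`, in state `B`, or inactive. If the states `A` and
`B` are exchanged by a bijection which does not disturb the other labels and which multiplies the
weight by `c`, then the sum over all configurations is the sum over those without state `A`, each
with the factor `(1 + c) ^ (number of labels in state B)`.
-/

namespace Pool.Agent.GaussPoset.Win.Ut

set_option linter.unusedSectionVars false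

open Finset

universe u

/-- switches on a finite set of configurations -/
structure Switches {E σ : Type*} [DecidableEq E] [DecidableEq σ] (Ω : Finset E) (s : Finset σ)
    (StA StB : σ → E → Prop) (T U : σ → E → E) : Prop where
  ab : ∀ a ∈ s, ∀ e ∈ Ω, StA a e → StB a (T a e) ∧ U a (T a e) = e ∧ T a e ∈ Ω
  ba : ∀ a ∈ s, ∀ e ∈ Ω, StB a e → StA a (U a e) ∧ T a (U a e) = e ∧ U a e ∈ Ω
  ex : ∀ a ∈ s, ∀ e ∈ Ω, StA a e → ¬ StB a e
  keA : ∀ a ∈ s, ∀ b ∈ s, a ≠ b → ∀ e ∈ Ω, StA a e → (StA b (T a e) ↔ StA b e)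
  keB : ∀ a ∈ s, ∀ b ∈ s, a ≠ b → ∀ e ∈ Ω, StA a e → (StB b (T a e) ↔ StB b e)

section

variable {E σ R : Type*} [DecidableEq E] [DecidableEq σ] [CommRing R] {Ω : Finset E}
  {s : Finset σ} {StA StB : σ → E → Prop} {T U : σ → E → E}

open Classical in
/-- the number of active labels -/
theorem Switches.sum (W : Switches Ω s StA StB T U) (c : R) (f : E → R)
    (hf : ∀ a ∈ s, ∀ e ∈ Ω, StA a e → f e = c * f (T a e)) (s' : Finset σ) (hs : s' ⊆ s) :
    ∑ e ∈ Ω, f e = ∑ e ∈ Ω.filter (fun e => ∀ a ∈ s', ¬ StA a e),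
      (1 + c) ^ (s'.filter (fun a => StB a e)).card * f e := by
  classical
  induction s' using Finset.induction_on with
  | empty =>
    simp
  | insert a s' ha ih =>
    have has : a ∈ s := hs (mem_insert_self a s')
    have hs' : s' ⊆ s := (subset_insert a s').trans hs
    rw [ih hs']
    set Ω1 := Ω.filter (fun e => ∀ a ∈ s', ¬ StA a e) with hΩ1
    set g : E → R := fun e => (1 + c) ^ (s'.filter (fun a => StB a e)).card * f e with hg
    have hmem1 : ∀ e, e ∈ Ω1 ↔ e ∈ Ω ∧ ∀ b ∈ s', ¬ StA b e := fun e => by rw [hΩ1, mem_filter]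
    -- the toggle acts on `Ω1`
    have hT : ∀ e ∈ Ω1, StA a e → T a e ∈ Ω1 := by
      intro e he hA
      rw [hmem1] at he ⊢
      refine ⟨(W.ab a has e he.1 hA).2.2, fun b hb hb' => he.2 b hb ?_⟩
      exact (W.keA a has b (hs' hb) (fun q => ha (q ▸ hb)) e he.1 hA).1 hb'
    have hU : ∀ e ∈ Ω1, StB a e → U a e ∈ Ω1 := by
      intro e he hB
      rw [hmem1] at he ⊢
      obtain ⟨h1, h2, h3⟩ := W.ba a has e he.1 hB
      refine ⟨h3, fun b hb hb' => he.2 b hb ?_⟩
      have h4 := (W.keA a has b (hs' hb) (fun q => ha (q ▸ hb)) _ h3 h1).2 hb'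
      rwa [h2] at h4
    have hgT : ∀ e ∈ Ω1, StA a e → g e = c * g (T a e) := by
      intro e he hA
      have he' := ((hmem1 e).1 he).1
      have h1 : s'.filter (fun b => StB b (T a e)) = s'.filter (fun b => StB b e) := by
        refine filter_congr fun b hb => ?_
        exact W.keB a has b (hs' hb) (fun q => ha (q ▸ hb)) e he' hA
      rw [hg]
      simp only
      rw [h1, hf a has e he' hA]
      ring
    have hsplit : ∑ e ∈ Ω1, g e = ∑ e ∈ Ω1.filter (fun e => StA a e), g e +
        ∑ e ∈ Ω1.filter (fun e => ¬ StA a e), g e :=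
      (sum_filter_add_sum_filter_not _ _ _).symm
    have hA : ∑ e ∈ Ω1.filter (fun e => StA a e), g e =
        ∑ e ∈ Ω1.filter (fun e => StB a e), c * g e := by
      refine sum_bij' (i := fun e _ => T a e) (j := fun e _ => U a e) ?_ ?_ ?_ ?_ ?_
      · intro e he
        rw [mem_filter] at he ⊢
        exact ⟨hT e he.1 he.2, (W.ab a has e ((hmem1 e).1 he.1).1 he.2).1⟩
      · intro e he
        rw [mem_filter] at he ⊢
        exact ⟨hU e he.1 he.2, (W.ba a has e ((hmem1 e).1 he.1).1 he.2).1⟩
      · intro e he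
        rw [mem_filter] at he
        exact (W.ab a has e ((hmem1 e).1 he.1).1 he.2).2.1
      · intro e he
        rw [mem_filter] at he
        exact (W.ba a has e ((hmem1 e).1 he.1).1 he.2).2.1
      · intro e he
        rw [mem_filter] at he
        exact hgT e he.1 he.2
    have hB : ∑ e ∈ Ω1.filter (fun e => StB a e), c * g e =
        ∑ e ∈ Ω1.filter (fun e => ¬ StA a e), if StB a e then c * g e else 0 := by
      rw [← sum_filter]
      refine sum_congr ?_ fun _ _ => rfl
      ext e
      constructor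
      · intro h
        obtain ⟨h1, h2⟩ := mem_filter.1 h
        exact mem_filter.2 ⟨mem_filter.2 ⟨h1, fun h3 =>
          W.ex a has e ((hmem1 e).1 h1).1 h3 h2⟩, h2⟩
      · intro h
        obtain ⟨h1, h2⟩ := mem_filter.1 h
        exact mem_filter.2 ⟨(mem_filter.1 h1).1, h2⟩
    rw [hsplit, hA, hB, ← sum_add_distrib]
    have hΩ2 : Ω.filter (fun e => ∀ b ∈ insert a s', ¬ StA b e) =
        Ω1.filter (fun e => ¬ StA a e) := by
      rw [hΩ1, filter_filter]
      refine filter_congr fun e _ => ?_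
      rw [forall_mem_insert]
      exact and_comm
    rw [hΩ2]
    refine sum_congr rfl fun e _ => ?_
    rw [filter_insert]
    by_cases hB' : StB a e
    · rw [if_pos hB', if_pos hB', card_insert_of_notMem (by
        rw [mem_filter]
        exact fun h => ha h.1), pow_succ]
      rw [hg]
      ring
    · rw [if_neg hB', if_neg hB', zero_add]

open Classical in
/-- divisibility: one factor for every active label -/
theorem Switches.dvd (W : Switches Ω s StA StB T U) (c d : R) (hcd : d ∣ 1 + c) (f : E → R)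
    (hf : ∀ a ∈ s, ∀ e ∈ Ω, StA a e → f e = c * f (T a e)) (N : R)
    (hN : ∀ Q, Q ⊆ s → N ∣ d ^ Q.card *
      ∑ e ∈ Ω.filter (fun e => ∀ a ∈ s, ¬ StA a e ∧ (StB a e ↔ a ∈ Q)), f e) :
    N ∣ ∑ e ∈ Ω, f e := by
  classical
  rw [W.sum c f hf s (Subset.refl _)]
  have h1 : ∑ e ∈ Ω.filter (fun e => ∀ a ∈ s, ¬ StA a e),
      (1 + c) ^ (s.filter (fun a => StB a e)).card * f e =
      ∑ Q ∈ s.powerset, ∑ e ∈ (Ω.filter (fun e => ∀ a ∈ s, ¬ StA a e)).filter
        (fun e => s.filter (fun a => StB a e) = Q), (1 + c) ^ Q.card * f e := by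
    rw [← sum_fiberwise_of_maps_to (t := s.powerset) (g := fun e => s.filter (fun a => StB a e))
      (fun e _ => mem_powerset.2 (filter_subset _ _))]
    refine sum_congr rfl fun Q _ => sum_congr rfl fun e he => ?_
    rw [mem_filter] at he
    rw [he.2]
  rw [h1]
  refine dvd_sum fun Q hQ => ?_
  rw [mem_powerset] at hQ
  rw [← mul_sum]
  have h2 : (Ω.filter (fun e => ∀ a ∈ s, ¬ StA a e)).filter
      (fun e => s.filter (fun a => StB a e) = Q) =
      Ω.filter (fun e => ∀ a ∈ s, ¬ StA a e ∧ (StB a e ↔ a ∈ Q)) := by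
    rw [filter_filter]
    refine filter_congr fun e _ => ?_
    constructor
    · rintro ⟨h3, h4⟩ a ha
      refine ⟨h3 a ha, ?_⟩
      rw [← h4, mem_filter]
      exact ⟨fun h => ⟨ha, h⟩, fun h => h.2⟩
    · intro h3
      refine ⟨fun a ha => (h3 a ha).1, ?_⟩
      ext a
      rw [mem_filter]
      constructor
      · rintro ⟨h4, h5⟩
        exact (h3 a h4).2.1 h5
      · intro h4
        exact ⟨hQ h4, (h3 a (hQ h4)).2.2 h4⟩
  rw [h2]
  exact (hN Q hQ).trans (mul_dvd_mul_right (pow_dvd_pow_of_dvd hcd _) _)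

end

end Pool.Agent.GaussPoset.Win.Ut
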