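import Pool.Agent.W_448ut_h16.UtD

/-!
# The switch below a doubled pair (MP_448cb3_co, unit trick)

`d` on level `i + 2` is below the two doubles `w`, `w'` (sites `p, x` and `x, q`). State `A`:
`w = w' = 1`, `d = 2`, `x = 0`; state `B`: `w = w' = 1`, `d = 1`, `x = 1`. The terms differ by the
factor `xx ^ 3`.
-/

namespace Pool.Agent.GaussPoset.Win.Ut

set_option linter.unusedSectionVars false

open Finset I2

universe u

/-- the elements around a switch -/
structure Sw (P : Type u) where
  w : P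
  w' : P
  p : P
  x : P
  q : P

variable {P : Type u} [Fintype P] [PartialOrder P] [DecidableEq P] {r i l : ℕ}

/-- the incidences of a switch -/
structure SwOK (P : Type u) [Fintype P] [PartialOrder P] [DecidableEq P] (i : ℕ) (d : P)
    (s : Sw P) : Prop where
  ld : lev d = i + 2
  lx : lev s.x = i
  ucd : uc d = {s.w, s.w'}
  ucw : uc s.w = {s.p, s.x}
  ucw' : uc s.w' = {s.x, s.q}
  dcx : dc s.x = {s.w, s.w'}

/-- the common part of the two states -/
structure StC (d : P) (s : Sw P) (e : P → ℕ) : Prop where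
  w1 : e s.w = 1
  w1' : e s.w' = 1
  p0 : e s.p = 0
  q0 : e s.q = 0
  t1 : ∀ t, t ⋖ d → e t ≤ 1
  o0 : ∀ d', d' ≠ d → (d' ⋖ s.w ∨ d' ⋖ s.w') → e d' = 0
  u0 : ∀ u, s.x ⋖ u → e u = 0

/-- state `A` -/
structure StA (d : P) (s : Sw P) (e : P → ℕ) : Prop extends StC d s e where
  d2 : e d = 2
  x0 : e s.x = 0

/-- state `B` -/
structure StB (d : P) (s : Sw P) (e : P → ℕ) : Prop extends StC d s e where
  d1 : e d = 1
  x1 : e s.x = 1

/-- from `A` to `B` -/
def tog (d : P) (s : Sw P) (e : P → ℕ) : P → ℕ :=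
  fun y => if y = d then 1 else if y = s.x then 1 else e y

/-- from `B` to `A` -/
def gto (d : P) (s : Sw P) (e : P → ℕ) : P → ℕ :=
  fun y => if y = d then 2 else if y = s.x then 0 else e y

section basic

variable {d : P} {s : Sw P} {e : P → ℕ}

lemma SwOK.lw (H : Gr P r) (K : SwOK P i d s) : lev s.w = i + 1 ∧ lev s.w' = i + 1 := by
  have h1 := lev_uc H (x := d) (v := s.w) (by rw [K.ucd]; simp)
  have h2 := lev_uc H (x := d) (v := s.w') (by rw [K.ucd]; simp)
  have := K.ld
  omega

lemma SwOK.lp (H : Gr P r) (K : SwOK P i d s) : lev s.p = i ∧ lev s.q = i := by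
  have h1 := lev_uc H (x := s.w) (v := s.p) (by rw [K.ucw]; simp)
  have h2 := lev_uc H (x := s.w') (v := s.q) (by rw [K.ucw']; simp)
  have := K.lw H
  omega

lemma SwOK.dx (K : SwOK P i d s) : d ≠ s.x := by
  intro h
  have h1 := K.ld
  have h2 := K.lx
  rw [h] at h1
  omega

lemma SwOK.cov_w (K : SwOK P i d s) : d ⋖ s.w := mem_uc.1 (by rw [K.ucd]; simp)
lemma SwOK.cov_w' (K : SwOK P i d s) : d ⋖ s.w' := mem_uc.1 (by rw [K.ucd]; simp)
lemma SwOK.wx (K : SwOK P i d s) : s.w ⋖ s.x := mem_uc.1 (by rw [K.ucw]; simp)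
lemma SwOK.wx' (K : SwOK P i d s) : s.w' ⋖ s.x := mem_uc.1 (by rw [K.ucw']; simp)

lemma SwOK.cov_d (K : SwOK P i d s) {z : P} (h : d ⋖ z) : z = s.w ∨ z = s.w' := by
  have h1 := mem_uc.2 h
  rw [K.ucd, mem_insert, mem_singleton] at h1
  exact h1

lemma SwOK.cov_x (K : SwOK P i d s) {z : P} (h : z ⋖ s.x) : z = s.w ∨ z = s.w' := by
  have h1 := mem_dc.2 h
  rw [K.dcx, mem_insert, mem_singleton] at h1
  exact h1

lemma SwOK.up_w (K : SwOK P i d s) {z : P} (h : s.w ⋖ z) : z = s.p ∨ z = s.x := by
  have h1 := mem_uc.2 h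
  rw [K.ucw, mem_insert, mem_singleton] at h1
  exact h1

lemma SwOK.up_w' (K : SwOK P i d s) {z : P} (h : s.w' ⋖ z) : z = s.x ∨ z = s.q := by
  have h1 := mem_uc.2 h
  rw [K.ucw', mem_insert, mem_singleton] at h1
  exact h1

@[simp] lemma tog_d : tog d s e d = 1 := by simp [tog]
@[simp] lemma gto_d : gto d s e d = 2 := by simp [gto]

lemma tog_x (K : SwOK P i d s) : tog d s e s.x = 1 := by
  unfold tog; rw [if_neg K.dx.symm, if_pos rfl]

lemma gto_x (K : SwOK P i d s) : gto d s e s.x = 0 := by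
  unfold gto; rw [if_neg K.dx.symm, if_pos rfl]

lemma tog_of {y : P} (h1 : y ≠ d) (h2 : y ≠ s.x) : tog d s e y = e y := by
  unfold tog; rw [if_neg h1, if_neg h2]

lemma gto_of {y : P} (h1 : y ≠ d) (h2 : y ≠ s.x) : gto d s e y = e y := by
  unfold gto; rw [if_neg h1, if_neg h2]

/-- the common part does not see `d` and `x`, unless `p = x` or `q = x` -/
lemma StC.congr (H : Gr P r) (K : SwOK P i d s) {e f : P → ℕ} (hpx : s.p ≠ s.x) (hqx : s.q ≠ s.x)
    (hef : ∀ y, y ≠ d → y ≠ s.x → f y = e y) (h : StC d s e) : StC d s f := by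
  obtain ⟨l1, l2⟩ := K.lw H
  obtain ⟨l3, l4⟩ := K.lp H
  have l0 := K.ld
  have lx := K.lx
  have key : ∀ y, lev y ≠ i → y ≠ d → f y = e y := fun y h1 h2 => hef y h2 (by
    rintro rfl; exact h1 lx)
  refine ⟨?_, ?_, ?_, ?_, ?_, ?_, ?_⟩
  · rw [key _ (by omega) (by rintro h; rw [h] at l1; omega)]; exact h.w1
  · rw [key _ (by omega) (by rintro h; rw [h] at l2; omega)]; exact h.w1'
  · rw [hef _ (by rintro h; rw [h] at l3; omega) hpx]; exact h.p0
  · rw [hef _ (by rintro h; rw [h] at l4; omega) hqx]; exact h.q0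
  · intro t ht
    have := lev_uc H (mem_uc.2 ht)
    rw [key t (by omega) (by rintro rfl; omega)]
    exact h.t1 t ht
  · intro d' hd hd'
    have hl : lev d' = i + 2 := by
      rcases hd' with h1 | h1
      · have := lev_uc H (mem_uc.2 h1); omega
      · have := lev_uc H (mem_uc.2 h1); omega
    rw [key d' (by omega) hd]
    exact h.o0 d' hd hd'
  · intro u hu
    have := lev_uc H (mem_uc.2 hu)
    rw [key u (by omega) (by rintro rfl; omega)]
    exact h.u0 u hu

lemma StA.tog (H : Gr P r) (K : SwOK P i d s) (hpx : s.p ≠ s.x) (hqx : s.q ≠ s.x)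
    (h : StA d s e) : StB d s (tog d s e) :=
  ⟨h.toStC.congr H K hpx hqx fun _ h1 h2 => tog_of h1 h2, tog_d, tog_x K⟩

lemma StB.gto (H : Gr P r) (K : SwOK P i d s) (hpx : s.p ≠ s.x) (hqx : s.q ≠ s.x)
    (h : StB d s e) : StA d s (gto d s e) :=
  ⟨h.toStC.congr H K hpx hqx fun _ h1 h2 => gto_of h1 h2, gto_d, gto_x K⟩

lemma StA.back (K : SwOK P i d s) (h : StA d s e) : Ut.gto d s (Ut.tog d s e) = e := by
  funext y
  by_cases h1 : y = d
  · subst h1; rw [gto_d, h.d2]
  · by_cases h2 : y = s.x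
    · subst h2; rw [gto_x K, h.x0]
    · rw [gto_of h1 h2, tog_of h1 h2]

lemma StB.back (K : SwOK P i d s) (h : StB d s e) : Ut.tog d s (Ut.gto d s e) = e := by
  funext y
  by_cases h1 : y = d
  · subst h1; rw [tog_d, h.d1]
  · by_cases h2 : y = s.x
    · subst h2; rw [tog_x K, h.x1]
    · rw [tog_of h1 h2, gto_of h1 h2]

end basic

section stat

variable {d : P} {s : Sw P} {e : P → ℕ}

/-- `FD` in the two states -/
lemma tog_FD (H : Gr P r) (K : SwOK P i d s) (h : StA d s e) (z : P) (hz : i ≤ lev z) :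
    FD e z ↔ FD (tog d s e) z ∨ z = s.w ∨ z = s.w' ∨ z = s.x := by
  obtain ⟨l1, l2⟩ := K.lw H
  have lx := K.lx
  have ld := K.ld
  by_cases h1 : z = s.w
  · subst h1
    exact ⟨fun _ => Or.inr (Or.inl rfl), fun _ => ⟨d, K.cov_w, by rw [h.w1, h.d2]; norm_num⟩⟩
  by_cases h2 : z = s.w'
  · subst h2
    exact ⟨fun _ => Or.inr (Or.inr (Or.inl rfl)), fun _ => ⟨d, K.cov_w', by
      rw [h.w1', h.d2]; norm_num⟩⟩
  by_cases h3 : z = s.x
  · subst h3
    exact ⟨fun _ => Or.inr (Or.inr (Or.inr rfl)), fun _ => ⟨s.w, K.wx, by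
      rw [h.x0, h.w1]; norm_num⟩⟩
  have key : FD e z ↔ FD (tog d s e) z := by
    by_cases h4 : z = d
    · subst h4
      constructor
      · rintro ⟨t, ht, hlt⟩
        rw [h.d2] at hlt
        have := h.t1 t ht
        omega
      · rintro ⟨t, ht, hlt⟩
        have hlt' := lev_uc H (mem_uc.2 ht)
        rw [tog_d, tog_of (by rintro rfl; omega) (by rintro rfl; omega)] at hlt
        have := h.t1 t ht
        omega
    · unfold FD
      refine exists_congr fun z' => and_congr_right fun hz' => ?_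
      have hl := lev_uc H (mem_uc.2 hz')
      rw [tog_of h4 h3]
      by_cases h5 : z' = d
      · subst h5
        rcases K.cov_d hz' with rfl | rfl
        · exact absurd rfl h1
        · exact absurd rfl h2
      · rw [tog_of h5 (by rintro rfl; omega)]
  rw [key]
  constructor
  · exact Or.inl
  · rintro (h5 | h5 | h5 | h5)
    · exact h5
    · exact absurd h5 h1
    · exact absurd h5 h2
    · exact absurd h5 h3

lemma tog_FD_w (H : Gr P r) (K : SwOK P i d s) (h : StA d s e) {z : P}
    (hz : z = s.w ∨ z = s.w' ∨ z = s.x ∨ z = d) : ¬ FD (tog d s e) z := by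
  obtain ⟨l1, l2⟩ := K.lw H
  have lx := K.lx
  have ld := K.ld
  have ow : ∀ y, y ≠ d → y ≠ s.x → tog d s e y = e y := fun y h1 h2 => tog_of h1 h2
  rintro ⟨z', hz', hlt⟩
  have hl := lev_uc H (mem_uc.2 hz')
  rcases hz with rfl | rfl | rfl | rfl
  · rw [ow s.w (by rintro h; rw [h] at l1; omega) (by rintro h; rw [h] at l1; omega), h.w1] at hlt
    by_cases h5 : z' = d
    · subst h5; rw [tog_d] at hlt; omega
    · rw [ow z' h5 (by rintro rfl; omega), h.o0 z' h5 (Or.inl hz')] at hlt
      omega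
  · rw [ow s.w' (by rintro h; rw [h] at l2; omega) (by rintro h; rw [h] at l2; omega),
      h.w1'] at hlt
    by_cases h5 : z' = d
    · subst h5; rw [tog_d] at hlt; omega
    · rw [ow z' h5 (by rintro rfl; omega), h.o0 z' h5 (Or.inr hz')] at hlt
      omega
  · rw [tog_x K] at hlt
    rcases K.cov_x hz' with rfl | rfl
    · rw [ow s.w (by rintro h; rw [h] at l1; omega) (by rintro h; rw [h] at l1; omega),
        h.w1] at hlt
      omega
    · rw [ow s.w' (by rintro h; rw [h] at l2; omega) (by rintro h; rw [h] at l2; omega),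
        h.w1'] at hlt
      omega
  · rw [tog_d, ow z' (by rintro rfl; omega) (by rintro rfl; omega)] at hlt
    have := h.t1 z' hz'
    omega

/-- `GU` below the window in the two states -/
lemma tog_GU (H : Gr P r) (K : SwOK P i d s) (h : StA d s e) (z : P) (hz : i < lev z) :
    GU (tog d s e) z ↔ GU e z ∨ z = s.w ∨ z = s.w' ∨ z = d := by
  obtain ⟨l1, l2⟩ := K.lw H
  have lx := K.lx
  have ld := K.ld
  have ow : ∀ y, y ≠ d → y ≠ s.x → tog d s e y = e y := fun y h1 h2 => tog_of h1 h2
  by_cases h1 : z = s.w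
  · subst h1
    refine ⟨fun _ => Or.inr (Or.inl rfl), fun _ => ⟨s.x, K.wx, ?_⟩⟩
    rw [tog_x K, ow s.w (by rintro h; rw [h] at l1; omega) (by rintro h; rw [h] at l1; omega), h.w1]
  by_cases h2 : z = s.w'
  · subst h2
    refine ⟨fun _ => Or.inr (Or.inr (Or.inl rfl)), fun _ => ⟨s.x, K.wx', ?_⟩⟩
    rw [tog_x K, ow s.w' (by rintro h; rw [h] at l2; omega) (by rintro h; rw [h] at l2; omega),
      h.w1']
  by_cases h3 : z = d
  · subst h3
    refine ⟨fun _ => Or.inr (Or.inr (Or.inr rfl)), fun _ => ⟨s.w, K.cov_w, ?_⟩⟩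
    rw [tog_d, ow s.w (by rintro h; rw [h] at l1; omega) (by rintro h; rw [h] at l1; omega), h.w1]
  have key : GU (tog d s e) z ↔ GU e z := by
    by_cases h4 : z ⋖ d
    · have ht := h.t1 z h4
      have hl := lev_uc H (mem_uc.2 h4)
      constructor
      · intro _
        exact ⟨d, h4, by rw [h.d2]; omega⟩
      · intro _
        refine ⟨d, h4, ?_⟩
        rw [tog_d, ow z (by rintro rfl; omega) (by rintro rfl; omega)]
        exact ht
    · unfold GU
      refine exists_congr fun y => and_congr_right fun hy => ?_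
      have hl := lev_uc H (mem_uc.2 hy)
      rw [ow z h3 (by rintro rfl; omega)]
      by_cases h5 : y = s.x
      · subst h5
        rcases K.cov_x hy with rfl | rfl
        · exact absurd rfl h1
        · exact absurd rfl h2
      · rw [ow y (by rintro rfl; exact h4 hy) h5]
  rw [key]
  constructor
  · exact Or.inl
  · rintro (h5 | h5 | h5 | h5)
    · exact h5
    · exact absurd h5 h1
    · exact absurd h5 h2
    · exact absurd h5 h3

lemma A_GU (H : Gr P r) (K : SwOK P i d s) (h : StA d s e) {z : P}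
    (hz : z = s.w ∨ z = s.w' ∨ z = d) : ¬ GU e z := by
  rintro ⟨y, hy, hle⟩
  rcases hz with rfl | rfl | rfl
  · rw [h.w1] at hle
    rcases K.up_w hy with rfl | rfl
    · rw [h.p0] at hle; omega
    · rw [h.x0] at hle; omega
  · rw [h.w1'] at hle
    rcases K.up_w' hy with rfl | rfl
    · rw [h.x0] at hle; omega
    · rw [h.q0] at hle; omega
  · rw [h.d2] at hle
    rcases K.cov_d hy with rfl | rfl
    · rw [h.w1] at hle; omega
    · rw [h.w1'] at hle; omega

/-- above the window nothing changes -/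
lemma tog_FU (H : Gr P r) (K : SwOK P i d s) (h : StA d s e) (z : P) (hz : lev z ≤ i) :
    FU e z ↔ FU (tog d s e) z := by
  have lx := K.lx
  have ld := K.ld
  by_cases h1 : z = s.x
  · subst h1
    constructor
    · rintro ⟨y, hy, hlt⟩
      rw [h.u0 y hy] at hlt; omega
    · rintro ⟨y, hy, hlt⟩
      have hl := lev_uc H (mem_uc.2 hy)
      rw [tog_x K, tog_of (by rintro rfl; omega) (by intro h5; rw [h5] at hl; omega),
        h.u0 y hy] at hlt
      omega
  · unfold FU
    refine exists_congr fun y => and_congr_right fun hy => ?_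
    have hl := lev_uc H (mem_uc.2 hy)
    rw [tog_of (by rintro rfl; omega) h1, tog_of (by rintro rfl; omega) (by rintro rfl; omega)]

lemma tog_GD (H : Gr P r) (K : SwOK P i d s) (h : StA d s e) (u : P) (hu : lev u < i) :
    GD e u ↔ GD (tog d s e) u := by
  have lx := K.lx
  have ld := K.ld
  by_cases h1 : s.x ⋖ u
  · have hu0 := h.u0 u h1
    constructor
    · intro _
      refine ⟨s.x, h1, ?_⟩
      rw [tog_of (by rintro rfl; omega) (by rintro rfl; omega), hu0]
      exact Nat.zero_le _
    · intro _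
      exact ⟨s.x, h1, by rw [hu0]; exact Nat.zero_le _⟩
  · unfold GD
    refine exists_congr fun z => and_congr_right fun hz => ?_
    have hl := lev_uc H (mem_uc.2 hz)
    rw [tog_of (by rintro rfl; omega) (by rintro rfl; omega),
      tog_of (by rintro rfl; omega) (by rintro rfl; exact h1 hz)]

open Classical in
/-- THE TERMS of the two states -/
theorem tC_tog (H : Gr P r) (K : SwOK P i d s) (hww : s.w ≠ s.w') {C : Finset P}
    (hC : Part i C) (he : Spt C e) (h : StA d s e) :
    tC i C e = xx ^ 3 * tC i C (tog d s e) := by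
  obtain ⟨l1, l2⟩ := K.lw H
  have lx := K.lx
  have ld := K.ld
  set f := tog d s e with hf
  have hAdmL : AdmL i e ↔ AdmL i f := by
    unfold AdmL
    refine forall_congr' fun z => forall_congr' fun hz => not_congr ?_
    rw [tog_FD H K h z hz.le, hf, tog_GU H K h z hz]
    constructor
    · rintro ⟨h1, h2⟩
      refine ⟨?_, Or.inl h2⟩
      rcases h1 with h1 | h1 | h1 | h1
      · exact h1
      · exact absurd h2 (A_GU H K h (Or.inl h1))
      · exact absurd h2 (A_GU H K h (Or.inr (Or.inl h1)))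
      · rw [h1] at hz; omega
    · rintro ⟨h1, h2⟩
      refine ⟨Or.inl h1, ?_⟩
      rcases h2 with h2 | h2 | h2 | h2
      · exact h2
      · exact absurd h1 (tog_FD_w H K h (Or.inl h2))
      · exact absurd h1 (tog_FD_w H K h (Or.inr (Or.inl h2)))
      · exact absurd h1 (tog_FD_w H K h (Or.inr (Or.inr (Or.inr h2))))
  have hAdmU : AdmU i e ↔ AdmU i f := by
    unfold AdmU
    refine forall_congr' fun z => forall_congr' fun hz => not_congr ?_
    rw [tog_FU H K h z hz.le, tog_GD H K h z hz]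
  have haL : aL i e = aL i f + 2 := by
    unfold aL
    have h1 : univ.filter (fun z : P => i < lev z ∧ FD e z) =
        univ.filter (fun z : P => i < lev z ∧ FD f z) ∪ {s.w, s.w'} := by
      ext z
      simp only [mem_filter, mem_univ, true_and, mem_union, mem_insert, mem_singleton]
      constructor
      · rintro ⟨h1, h2⟩
        rw [tog_FD H K h z h1.le] at h2
        rcases h2 with h2 | h2 | h2 | h2
        · exact Or.inl ⟨h1, h2⟩
        · exact Or.inr (Or.inl h2)
        · exact Or.inr (Or.inr h2)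
        · rw [h2] at h1; omega
      · rintro (⟨h1, h2⟩ | h1 | h1)
        · exact ⟨h1, (tog_FD H K h z h1.le).2 (Or.inl h2)⟩
        · refine ⟨by rw [h1]; omega, (tog_FD H K h z (by rw [h1]; omega)).2 (Or.inr (Or.inl h1))⟩
        · refine ⟨by rw [h1]; omega,
            (tog_FD H K h z (by rw [h1]; omega)).2 (Or.inr (Or.inr (Or.inl h1)))⟩
    rw [h1, card_union_of_disjoint, card_pair hww]
    rw [disjoint_left]
    intro z hz hz'
    rw [mem_filter] at hz
    rw [mem_insert, mem_singleton] at hz'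
    rcases hz' with h2 | h2
    · exact tog_FD_w H K h (Or.inl h2) hz.2.2
    · exact tog_FD_w H K h (Or.inr (Or.inl h2)) hz.2.2
  have hpL : pL i e = pL i f + 1 := by
    unfold pL
    have h1 : univ.filter (fun z : P => i < lev z ∧ ¬ FD e z ∧ ¬ GU e z) =
        insert d (univ.filter (fun z : P => i < lev z ∧ ¬ FD f z ∧ ¬ GU f z)) := by
      ext z
      rw [mem_insert, mem_filter, mem_filter]
      constructor
      · rintro ⟨-, h1, h2, h3⟩
        rw [tog_FD H K h z h1.le] at h2
        push Not at h2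
        obtain ⟨g1, g2, g3, g4⟩ := h2
        by_cases h4 : z = d
        · exact Or.inl h4
        · refine Or.inr ⟨mem_univ _, h1, g1, fun h5 => ?_⟩
          rw [hf, tog_GU H K h z h1] at h5
          rcases h5 with h5 | h5 | h5 | h5
          · exact h3 h5
          · exact g2 h5
          · exact g3 h5
          · exact h4 h5
      · rintro (h1 | ⟨-, h1, h2, h3⟩)
        · subst h1
          refine ⟨mem_univ _, by omega, fun h2 => ?_, A_GU H K h (Or.inr (Or.inr rfl))⟩
          rw [tog_FD H K h z (by omega)] at h2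
          rcases h2 with h2 | h2 | h2 | h2
          · exact tog_FD_w H K h (Or.inr (Or.inr (Or.inr rfl))) h2
          · rw [h2] at ld; omega
          · rw [h2] at ld; omega
          · rw [h2] at ld; omega
        · rw [hf, tog_GU H K h z h1] at h3
          push Not at h3
          obtain ⟨g1, g2, g3, g4⟩ := h3
          refine ⟨mem_univ _, h1, fun h4 => ?_, g1⟩
          rw [tog_FD H K h z h1.le] at h4
          rcases h4 with h4 | h4 | h4 | h4
          · exact h2 h4
          · exact g2 h4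
          · exact g3 h4
          · rw [h4] at h1; omega
    rw [h1, card_insert_of_notMem]
    rw [mem_filter]
    rintro ⟨-, h2, h3, h4⟩
    exact h4 ((tog_GU H K h d (by omega)).2 (Or.inr (Or.inr (Or.inr rfl))))
  have haU : aU i e = aU i f := by
    unfold aU
    congr 1
    ext z
    rw [mem_filter, mem_filter]
    refine and_congr_right fun _ => and_congr_right fun hz => ?_
    exact tog_FU H K h z hz.le
  have hpU : pU i e = pU i f := by
    unfold pU
    congr 1
    ext z
    rw [mem_filter, mem_filter]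
    refine and_congr_right fun _ => and_congr_right fun hz => ?_
    rw [tog_FU H K h z hz.le, tog_GD H K h z hz]
  have hAU : AU i e = AU i f := by
    ext v
    rw [NormD_mem_AU, NormD_mem_AU]
    exact and_congr_right fun hv => tog_FU H K h v hv.le
  have hxf : s.x ∉ AL i f := by
    rw [NormD_mem_AL]
    rintro ⟨-, h1⟩
    exact tog_FD_w H K h (Or.inr (Or.inr (Or.inl rfl))) h1
  have hAL : AL i e = insert s.x (AL i f) := by
    ext v
    rw [mem_insert, NormD_mem_AL, NormD_mem_AL]
    constructor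
    · rintro ⟨h1, h2⟩
      rw [tog_FD H K h v h1.ge] at h2
      rcases h2 with h2 | h2 | h2 | h2
      · exact Or.inr ⟨h1, h2⟩
      · rw [h2] at h1; omega
      · rw [h2] at h1; omega
      · exact Or.inl h2
    · rintro (h1 | ⟨h1, h2⟩)
      · subst h1
        exact ⟨lx, (tog_FD H K h _ lx.ge).2 (Or.inr (Or.inr (Or.inr rfl)))⟩
      · exact ⟨h1, (tog_FD H K h v h1.ge).2 (Or.inl h2)⟩
  have hxU : s.x ∉ AU i f := by
    rw [← hAU, NormD_mem_AU]
    rintro ⟨-, y, hy, hlt⟩
    rw [h.u0 y hy] at hlt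
    omega
  have hdis : Disjoint (AL i e) (AU i e) ↔ Disjoint (AL i f) (AU i f) := by
    rw [hAL, hAU, disjoint_insert_left]
    exact ⟨fun h => h.2, fun h => ⟨hxU, h⟩⟩
  unfold tC
  by_cases hd : Disjoint (AL i e) (AU i e)
  swap
  · rw [if_neg hd, if_neg (fun h => hd (hdis.2 h)), mul_zero]
  rw [if_pos hd, if_pos (hdis.1 hd)]
  have hcard : (AL i e).card = (AL i f).card + 1 := by
    rw [hAL, card_insert_of_notMem hxf]
  have hle : (AL i e).card + (AU i e).card ≤ (st i C).card := by
    rw [← card_union_of_disjoint hd]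
    exact card_le_card (union_subset (AL_sub hC he) (AU_sub H hC he))
  obtain ⟨N, hN1, hN2⟩ : ∃ N, (st i C).card - (AL i e).card - (AU i e).card = N ∧
      (st i C).card - (AL i f).card - (AU i f).card = N + 1 := by
    refine ⟨_, rfl, ?_⟩
    rw [← hAU]
    omega
  rw [hN1, hN2]
  unfold cw
  by_cases ha : AdmL i e ∧ AdmU i e
  · rw [if_pos ha, if_pos ⟨hAdmL.1 ha.1, hAdmU.1 ha.2⟩, haL, hpL, haU, hpU, hcard]
    ring
  · rw [if_neg ha, if_neg (fun h => ha ⟨hAdmL.2 h.1, hAdmU.2 h.2⟩)]
    ring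

end stat

end Pool.Agent.GaussPoset.Win.Ut
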