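import Pool.Agent.W_448ut_h16.UtF

/-!
# The exchange (MP_448cb3_co, case B, Route T, block K), the lower side

`d` on level `i + 2` is over `w`, `w2` (sites `p, x` and `x, q`). The exchange moves the excess of `d`
to the common site `x` and back; the sum of the two terms is divisible by `dd` times one of them.
-/

namespace Pool.Agent.GaussPoset.Win.Kd

set_option linter.unusedSectionVars false

open Finset I2 Ut

universe u

variable {P : Type u} [Fintype P] [PartialOrder P] [DecidableEq P] {r i : ℕ}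
  {d w w2 p x q : P} {e f : P → ℕ}

/-- the exchange -/
def xc (d x : P) (e : P → ℕ) : P → ℕ :=
  fun y => if y = d then e x + 1 else if y = x then e d - 1 else e y

/-- the labels of an exchange -/
def Lab (d w w2 x : P) (e : P → ℕ) : Prop :=
  (e w = 1 ∧ e w2 = 1 ∧ ((e x = 0 ∧ 2 ≤ e d) ∨ (e d = 1 ∧ 1 ≤ e x))) ∨
    (((e w = 1 ∧ e w2 = 2) ∨ (e w = 2 ∧ e w2 = 1)) ∧ ((e x = 0 ∧ e d = 2) ∨ (e d = 1 ∧ e x = 1)))

/-- the exchange below the window -/
structure XcL (i : ℕ) (d w w2 p x q : P) (e : P → ℕ) : Prop where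
  ld : lev d = i + 2
  ucd : uc d = {w, w2}
  ucw : uc w = {p, x}
  ucw2 : uc w2 = {x, q}
  dcx : dc x = {w, w2}
  ne : w ≠ w2
  px : p ≠ x
  xq : x ≠ q
  lab : Lab d w w2 x e
  p0 : e p = 0
  q0 : e q = 0
  t1 : ∀ t ∈ dc d, e t ≤ 1
  o1 : ∀ d2 ∈ dc w ∪ dc w2, d2 ≠ d → e d2 ≤ 1
  u0 : ∀ u ∈ uc x, e u = 0

lemma FDm {z : P} : FD e z ↔ ∃ z' ∈ dc z, e z < e z' := by
  unfold FD
  simp only [mem_dc]

lemma GUm {z : P} : GU e z ↔ ∃ y ∈ uc z, e z ≤ e y := by
  unfold GU
  simp only [mem_uc]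

lemma FUm {z : P} : FU e z ↔ ∃ y ∈ uc z, e z < e y := by
  unfold FU
  simp only [mem_uc]

lemma GDm {z : P} : GD e z ↔ ∃ z' ∈ dc z, e z ≤ e z' := by
  unfold GD
  simp only [mem_dc]

lemma xc_d : xc d x e d = e x + 1 := by
  unfold xc
  rw [if_pos rfl]

lemma xc_x (h : x ≠ d) : xc d x e x = e d - 1 := by
  unfold xc
  rw [if_neg h, if_pos rfl]

lemma xc_of {y : P} (h1 : y ≠ d) (h2 : y ≠ x) : xc d x e y = e y := by
  unfold xc
  rw [if_neg h1, if_neg h2]

lemma Lab.one (h : Lab d w w2 x e) : 1 ≤ e d := by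
  rcases h with ⟨-, -, h | h⟩ | ⟨-, h | h⟩ <;> omega

lemma xc_xc (h : x ≠ d) (h1 : 1 ≤ e d) : xc d x (xc d x e) = e := by
  funext y
  by_cases hd : y = d
  · subst hd
    rw [xc_d, xc_x h]
    omega
  · by_cases hx : y = x
    · subst hx
      rw [xc_x h, xc_d]
      omega
    · rw [xc_of hd hx, xc_of hd hx]

lemma Lab.xc (hd : x ≠ d) (h1 : w ≠ d) (h2 : w ≠ x) (h3 : w2 ≠ d) (h4 : w2 ≠ x)
    (h : Lab d w w2 x e) : Lab d w w2 x (Kd.xc d x e) := by
  unfold Lab at h ⊢
  rw [xc_d, xc_x hd, xc_of h1 h2, xc_of h3 h4]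
  omega

lemma Lab.xc_ne (hd : x ≠ d) (h : Lab d w w2 x e) : Kd.xc d x e ≠ e := by
  intro h1
  have h2 := congrFun h1 x
  rw [xc_x hd] at h2
  unfold Lab at h
  omega

lemma Lab.symm (h : Lab d w w2 x e) : Lab d w2 w x e := by
  unfold Lab at h ⊢
  omega

/-- the sum over an exchange -/
lemma sum_xc {C : Finset P} (h : x ≠ d) (hd : d ∈ C) (hx : x ∈ C) (h1 : 1 ≤ e d) :
    C.sum (xc d x e) = C.sum e := by
  have key : ∀ g : P → ℕ, C.sum g = g d + (g x + ((C.erase d).erase x).sum g) := by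
    intro g
    rw [add_sum_erase _ g (mem_erase.2 ⟨h, hx⟩), add_sum_erase _ g hd]
  rw [key (xc d x e), key e, xc_d, xc_x h]
  have h2 : ((C.erase d).erase x).sum (xc d x e) = ((C.erase d).erase x).sum e := by
    refine sum_congr rfl fun y hy => ?_
    rw [mem_erase, mem_erase] at hy
    exact xc_of hy.2.1 hy.1
  omega

section low

lemma XcL.lv (H : Gr P r) (K : XcL i d w w2 p x q e) :
    lev w = i + 1 ∧ lev w2 = i + 1 ∧ lev x = i ∧ lev p = i ∧ lev q = i := by
  have h1 := lev_uc H (x := d) (v := w) (by rw [K.ucd]; simp)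
  have h2 := lev_uc H (x := d) (v := w2) (by rw [K.ucd]; simp)
  have h3 := lev_uc H (x := w) (v := x) (by rw [K.ucw]; simp)
  have h4 := lev_uc H (x := w) (v := p) (by rw [K.ucw]; simp)
  have h5 := lev_uc H (x := w2) (v := q) (by rw [K.ucw2]; simp)
  have := K.ld
  omega

lemma XcL.symm (K : XcL i d w w2 p x q e) : XcL i d w2 w q x p e where
  ld := K.ld
  ucd := by rw [K.ucd, pair_comm]
  ucw := by rw [K.ucw2, pair_comm]
  ucw2 := by rw [K.ucw, pair_comm]
  dcx := by rw [K.dcx, pair_comm]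
  ne := K.ne.symm
  px := K.xq.symm
  xq := K.px.symm
  lab := K.lab.symm
  p0 := K.q0
  q0 := K.p0
  t1 := K.t1
  o1 := fun d2 h h' => K.o1 d2 (by rwa [union_comm]) h'
  u0 := K.u0

/-- the exchanged configuration is of the same kind -/
lemma XcL.xc (H : Gr P r) (K : XcL i d w w2 p x q e) : XcL i d w w2 p x q (Kd.xc d x e) := by
  obtain ⟨l1, l2, l3, l4, l5⟩ := K.lv H
  have ld := K.ld
  have nd : ∀ y, lev y ≠ i + 2 → y ≠ d := by
    rintro y hy rfl
    exact hy ld
  have nx : ∀ y, lev y ≠ i → y ≠ x := by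
    rintro y hy rfl
    exact hy l3
  refine ⟨K.ld, K.ucd, K.ucw, K.ucw2, K.dcx, K.ne, K.px, K.xq, ?_, ?_, ?_, ?_, ?_, ?_⟩
  · exact K.lab.xc (nd x (by omega)) (nd w (by omega)) (nx w (by omega)) (nd w2 (by omega))
      (nx w2 (by omega))
  · rw [xc_of (nd p (by omega)) K.px]
    exact K.p0
  · rw [xc_of (nd q (by omega)) K.xq.symm]
    exact K.q0
  · intro t ht
    have := lev_dc H ht
    rw [xc_of (nd t (by omega)) (nx t (by omega))]
    exact K.t1 t ht
  · intro d2 hd2 hne
    have hl : lev d2 = i + 2 := by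
      rcases mem_union.1 hd2 with h1 | h1
      · have := lev_dc H h1
        omega
      · have := lev_dc H h1
        omega
    rw [xc_of hne (nx d2 (by omega))]
    exact K.o1 d2 hd2 hne
  · intro u hu
    have := lev_uc H hu
    rw [xc_of (nd u (by omega)) (nx u (by omega))]
    exact K.u0 u hu

section agree

variable (H : Gr P r) (K : XcL i d w w2 p x q e)
include H K

lemma XcL.x_ne : x ≠ d := by
  obtain ⟨l1, l2, l3, l4, l5⟩ := K.lv H
  rintro rfl
  have := K.ld
  omega

/-- above the window nothing changes -/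
lemma XcL.FU (z : P) (hz : lev z ≤ i) : FU (Kd.xc d x e) z ↔ FU e z := by
  obtain ⟨l1, l2, l3, l4, l5⟩ := K.lv H
  have ld := K.ld
  rw [FUm, FUm]
  by_cases h1 : z = x
  · subst h1
    constructor
    · rintro ⟨y, hy, hlt⟩
      have hl := lev_uc H hy
      rw [xc_of (y := y) (by rintro rfl; omega) (by intro h5; rw [h5] at hl; omega),
        K.u0 y hy] at hlt
      omega
    · rintro ⟨y, hy, hlt⟩
      rw [K.u0 y hy] at hlt
      omega
  · refine exists_congr fun y => and_congr_right fun hy => ?_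
    have hl := lev_uc H hy
    rw [xc_of (y := z) (by rintro rfl; omega) h1,
      xc_of (y := y) (by rintro rfl; omega) (by rintro rfl; omega)]

lemma XcL.GD (u : P) (hu : lev u < i) : GD (Kd.xc d x e) u ↔ GD e u := by
  obtain ⟨l1, l2, l3, l4, l5⟩ := K.lv H
  have ld := K.ld
  rw [GDm, GDm]
  by_cases h1 : u ∈ uc x
  · have hu0 := K.u0 u h1
    have hx : x ∈ dc u := by rwa [mem_dc, ← mem_uc]
    constructor
    · intro _
      exact ⟨x, hx, by rw [hu0]; exact Nat.zero_le _⟩
    · intro _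
      refine ⟨x, hx, ?_⟩
      rw [xc_of (y := u) (by rintro rfl; omega) (by rintro rfl; omega), hu0]
      exact Nat.zero_le _
  · refine exists_congr fun z => and_congr_right fun hz => ?_
    have hl := lev_dc H hz
    rw [xc_of (y := u) (by rintro rfl; omega) (by rintro rfl; omega),
      xc_of (y := z) (by rintro rfl; omega) (by
        rintro rfl
        exact h1 (by rwa [mem_uc, ← mem_dc]))]

end agree

section caseone

variable (H : Gr P r) (K : XcL i d w w2 p x q e) (h1 : e w = 1) (h2 : e w2 = 1) (hx : e x = 0)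
  (hd : 2 ≤ e d)
include H K h1 h2 hx hd

/-- `FD` in the two states, labels `1, 1` -/
lemma XcL.FD1 (z : P) (hz : i ≤ lev z) :
    FD e z ↔ FD (Kd.xc d x e) z ∨ z = w ∨ z = w2 ∨ z = x := by
  obtain ⟨l1, l2, l3, l4, l5⟩ := K.lv H
  have ld := K.ld
  have cw : d ∈ dc w := by rw [mem_dc, ← mem_uc, K.ucd]; simp
  have cw2 : d ∈ dc w2 := by rw [mem_dc, ← mem_uc, K.ucd]; simp
  have cx : w ∈ dc x := by rw [K.dcx]; simp
  have nx := K.x_ne H
  rw [FDm, FDm]
  by_cases e1 : z = w
  · subst e1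
    exact ⟨fun _ => Or.inr (Or.inl rfl), fun _ => ⟨d, cw, by omega⟩⟩
  by_cases e2 : z = w2
  · subst e2
    exact ⟨fun _ => Or.inr (Or.inr (Or.inl rfl)), fun _ => ⟨d, cw2, by omega⟩⟩
  by_cases e3 : z = x
  · subst e3
    exact ⟨fun _ => Or.inr (Or.inr (Or.inr rfl)), fun _ => ⟨w, cx, by omega⟩⟩
  have key : (∃ z' ∈ dc z, e z < e z') ↔ ∃ z' ∈ dc z, Kd.xc d x e z < Kd.xc d x e z' := by
    by_cases h4 : z = d
    · subst h4
      constructor
      · rintro ⟨t, ht, hlt⟩
        have := K.t1 t ht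
        omega
      · rintro ⟨t, ht, hlt⟩
        have hlt' := lev_dc H ht
        rw [xc_d, xc_of (y := t) (by rintro rfl; omega) (by rintro rfl; omega)] at hlt
        have := K.t1 t ht
        omega
    · refine exists_congr fun z' => and_congr_right fun hz' => ?_
      have hl := lev_dc H hz'
      rw [xc_of h4 e3]
      by_cases h5 : z' = d
      · subst h5
        have h6 : z ∈ uc z' := by rwa [mem_uc, ← mem_dc]
        rw [K.ucd, mem_insert, mem_singleton] at h6
        rcases h6 with rfl | rfl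
        · exact absurd rfl e1
        · exact absurd rfl e2
      · rw [xc_of h5 (by rintro rfl; omega)]
  rw [key]
  constructor
  · exact Or.inl
  · rintro (h5 | h5 | h5 | h5)
    · exact h5
    · exact absurd h5 e1
    · exact absurd h5 e2
    · exact absurd h5 e3

lemma XcL.nFD1 {z : P} (hz : z = w ∨ z = w2 ∨ z = x ∨ z = d) : ¬ FD (Kd.xc d x e) z := by
  obtain ⟨l1, l2, l3, l4, l5⟩ := K.lv H
  have ld := K.ld
  have nx := K.x_ne H
  have nw : w ≠ d ∧ w ≠ x := ⟨by rintro rfl; omega, by rintro rfl; omega⟩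
  have nw2 : w2 ≠ d ∧ w2 ≠ x := ⟨by rintro rfl; omega, by rintro rfl; omega⟩
  rw [FDm]
  rintro ⟨z', hz', hlt⟩
  have hl := lev_dc H hz'
  rcases hz with rfl | rfl | rfl | rfl
  · rw [xc_of nw.1 nw.2, h1] at hlt
    by_cases h5 : z' = d
    · rw [h5, xc_d, hx] at hlt; omega
    · rw [xc_of h5 (by rintro rfl; omega)] at hlt
      have := K.o1 z' (mem_union_left _ hz') h5
      omega
  · rw [xc_of nw2.1 nw2.2, h2] at hlt
    by_cases h5 : z' = d
    · rw [h5, xc_d, hx] at hlt; omega
    · rw [xc_of h5 (by rintro rfl; omega)] at hlt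
      have := K.o1 z' (mem_union_right _ hz') h5
      omega
  · rw [xc_x nx] at hlt
    rw [K.dcx, mem_insert, mem_singleton] at hz'
    rcases hz' with rfl | rfl
    · rw [xc_of nw.1 nw.2, h1] at hlt
      omega
    · rw [xc_of nw2.1 nw2.2, h2] at hlt
      omega
  · rw [xc_d, hx, xc_of (y := z') (by rintro rfl; omega) (by rintro rfl; omega)] at hlt
    have := K.t1 z' hz'
    omega

/-- `GU` below the window in the two states, labels `1, 1` -/
lemma XcL.GU1 (z : P) (hz : i < lev z) :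
    GU (Kd.xc d x e) z ↔ GU e z ∨ z = w ∨ z = w2 ∨ z = d := by
  obtain ⟨l1, l2, l3, l4, l5⟩ := K.lv H
  have ld := K.ld
  have nx := K.x_ne H
  have nw : w ≠ d ∧ w ≠ x := ⟨by rintro rfl; omega, by rintro rfl; omega⟩
  have nw2 : w2 ≠ d ∧ w2 ≠ x := ⟨by rintro rfl; omega, by rintro rfl; omega⟩
  have cx : x ∈ uc w := by rw [K.ucw]; simp
  have cx2 : x ∈ uc w2 := by rw [K.ucw2]; simp
  have cd : w ∈ uc d := by rw [K.ucd]; simp
  rw [GUm, GUm]
  by_cases e1 : z = w
  · subst e1
    refine ⟨fun _ => Or.inr (Or.inl rfl), fun _ => ⟨x, cx, ?_⟩⟩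
    rw [xc_x nx, xc_of nw.1 nw.2]
    omega
  by_cases e2 : z = w2
  · subst e2
    refine ⟨fun _ => Or.inr (Or.inr (Or.inl rfl)), fun _ => ⟨x, cx2, ?_⟩⟩
    rw [xc_x nx, xc_of nw2.1 nw2.2]
    omega
  by_cases e3 : z = d
  · subst e3
    refine ⟨fun _ => Or.inr (Or.inr (Or.inr rfl)), fun _ => ⟨w, cd, ?_⟩⟩
    rw [xc_d, xc_of nw.1 nw.2]
    omega
  have key : (∃ y ∈ uc z, Kd.xc d x e z ≤ Kd.xc d x e y) ↔ ∃ y ∈ uc z, e z ≤ e y := by
    by_cases h4 : z ∈ dc d
    · have ht := K.t1 z h4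
      have hl := lev_dc H h4
      have hd' : d ∈ uc z := by rwa [mem_uc, ← mem_dc]
      constructor
      · intro _
        exact ⟨d, hd', by omega⟩
      · intro _
        refine ⟨d, hd', ?_⟩
        rw [xc_d, xc_of (y := z) (by rintro rfl; omega) (by rintro rfl; omega)]
        omega
    · refine exists_congr fun y => and_congr_right fun hy => ?_
      have hl := lev_uc H hy
      rw [xc_of (y := z) e3 (by rintro rfl; omega)]
      by_cases h5 : y = x
      · subst h5
        have h6 : z ∈ dc y := by rwa [mem_dc, ← mem_uc]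
        rw [K.dcx, mem_insert, mem_singleton] at h6
        rcases h6 with rfl | rfl
        · exact absurd rfl e1
        · exact absurd rfl e2
      · rw [xc_of (by
          rintro rfl
          exact h4 (by rwa [mem_dc, ← mem_uc])) h5]
  rw [key]
  constructor
  · exact Or.inl
  · rintro (h5 | h5 | h5 | h5)
    · exact h5
    · exact absurd h5 e1
    · exact absurd h5 e2
    · exact absurd h5 e3

lemma XcL.nGU1 {z : P} (hz : z = w ∨ z = w2 ∨ z = d) : ¬ GU e z := by
  rw [GUm]
  rintro ⟨y, hy, hle⟩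
  have p0 := K.p0
  have q0 := K.q0
  rcases hz with rfl | rfl | rfl
  · rw [K.ucw, mem_insert, mem_singleton] at hy
    rcases hy with rfl | rfl <;> omega
  · rw [K.ucw2, mem_insert, mem_singleton] at hy
    rcases hy with rfl | rfl <;> omega
  · rw [K.ucd, mem_insert, mem_singleton] at hy
    rcases hy with rfl | rfl <;> omega

open Classical in
/-- the terms, labels `1, 1` -/
theorem XcL.tC1 {C : Finset P} (hC : Part i C) (he : Spt C e) :
    tC i C e = xx ^ 3 * tC i C (Kd.xc d x e) := by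
  obtain ⟨l1, l2, lx, l4, l5⟩ := K.lv H
  have ld := K.ld
  set f := Kd.xc d x e with hf
  have hAdmL : AdmL i e ↔ AdmL i f := by
    unfold AdmL
    refine forall_congr' fun z => forall_congr' fun hz => not_congr ?_
    rw [K.FD1 H h1 h2 hx hd z hz.le, hf, K.GU1 H h1 h2 hx hd z hz]
    constructor
    · rintro ⟨g1, g2⟩
      refine ⟨?_, Or.inl g2⟩
      rcases g1 with g1 | g1 | g1 | g1
      · exact g1
      · exact absurd g2 (K.nGU1 H h1 h2 hx hd (Or.inl g1))
      · exact absurd g2 (K.nGU1 H h1 h2 hx hd (Or.inr (Or.inl g1)))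
      · rw [g1] at hz; omega
    · rintro ⟨g1, g2⟩
      refine ⟨Or.inl g1, ?_⟩
      rcases g2 with g2 | g2 | g2 | g2
      · exact g2
      · exact absurd g1 (K.nFD1 H h1 h2 hx hd (Or.inl g2))
      · exact absurd g1 (K.nFD1 H h1 h2 hx hd (Or.inr (Or.inl g2)))
      · exact absurd g1 (K.nFD1 H h1 h2 hx hd (Or.inr (Or.inr (Or.inr g2))))
  have hAdmU : AdmU i e ↔ AdmU i f := by
    unfold AdmU
    refine forall_congr' fun z => forall_congr' fun hz => not_congr ?_
    rw [hf, K.FU H z hz.le, K.GD H z hz]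
  have haL : aL i e = aL i f + 2 := by
    unfold aL
    have g1 : univ.filter (fun z : P => i < lev z ∧ FD e z) =
        univ.filter (fun z : P => i < lev z ∧ FD f z) ∪ {w, w2} := by
      ext z
      simp only [mem_filter, mem_univ, true_and, mem_union, mem_insert, mem_singleton]
      constructor
      · rintro ⟨g1, g2⟩
        rw [K.FD1 H h1 h2 hx hd z g1.le] at g2
        rcases g2 with g2 | g2 | g2 | g2
        · exact Or.inl ⟨g1, g2⟩
        · exact Or.inr (Or.inl g2)
        · exact Or.inr (Or.inr g2)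
        · rw [g2] at g1; omega
      · rintro (⟨g1, g2⟩ | g1 | g1)
        · exact ⟨g1, (K.FD1 H h1 h2 hx hd z g1.le).2 (Or.inl g2)⟩
        · refine ⟨by rw [g1]; omega,
            (K.FD1 H h1 h2 hx hd z (by rw [g1]; omega)).2 (Or.inr (Or.inl g1))⟩
        · refine ⟨by rw [g1]; omega,
            (K.FD1 H h1 h2 hx hd z (by rw [g1]; omega)).2 (Or.inr (Or.inr (Or.inl g1)))⟩
    rw [g1, card_union_of_disjoint, card_pair K.ne]
    rw [disjoint_left]
    intro z hz hz'
    rw [mem_filter] at hz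
    rw [mem_insert, mem_singleton] at hz'
    rcases hz' with g2 | g2
    · exact K.nFD1 H h1 h2 hx hd (Or.inl g2) hz.2.2
    · exact K.nFD1 H h1 h2 hx hd (Or.inr (Or.inl g2)) hz.2.2
  have hpL : pL i e = pL i f + 1 := by
    unfold pL
    have g1 : univ.filter (fun z : P => i < lev z ∧ ¬ FD e z ∧ ¬ GU e z) =
        insert d (univ.filter (fun z : P => i < lev z ∧ ¬ FD f z ∧ ¬ GU f z)) := by
      ext z
      rw [mem_insert, mem_filter, mem_filter]
      constructor
      · rintro ⟨-, g1, g2, g3⟩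
        rw [K.FD1 H h1 h2 hx hd z g1.le] at g2
        push Not at g2
        obtain ⟨k1, k2, k3, k4⟩ := g2
        by_cases g4 : z = d
        · exact Or.inl g4
        · refine Or.inr ⟨mem_univ _, g1, k1, fun g5 => ?_⟩
          rw [hf, K.GU1 H h1 h2 hx hd z g1] at g5
          rcases g5 with g5 | g5 | g5 | g5
          · exact g3 g5
          · exact k2 g5
          · exact k3 g5
          · exact g4 g5
      · rintro (g1 | ⟨-, g1, g2, g3⟩)
        · rw [g1]
          refine ⟨mem_univ _, by omega, fun g2 => ?_, K.nGU1 H h1 h2 hx hd (Or.inr (Or.inr rfl))⟩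
          rw [K.FD1 H h1 h2 hx hd d (by omega)] at g2
          rcases g2 with g2 | g2 | g2 | g2
          · exact K.nFD1 H h1 h2 hx hd (Or.inr (Or.inr (Or.inr rfl))) g2
          · rw [g2] at ld; omega
          · rw [g2] at ld; omega
          · rw [g2] at ld; omega
        · rw [hf, K.GU1 H h1 h2 hx hd z g1] at g3
          push Not at g3
          obtain ⟨k1, k2, k3, k4⟩ := g3
          refine ⟨mem_univ _, g1, fun g4 => ?_, k1⟩
          rw [K.FD1 H h1 h2 hx hd z g1.le] at g4
          rcases g4 with g4 | g4 | g4 | g4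
          · exact g2 g4
          · exact k2 g4
          · exact k3 g4
          · rw [g4] at g1; omega
    rw [g1, card_insert_of_notMem]
    rw [mem_filter]
    rintro ⟨-, g2, g3, g4⟩
    exact g4 ((K.GU1 H h1 h2 hx hd d (by omega)).2 (Or.inr (Or.inr (Or.inr rfl))))
  have haU : aU i e = aU i f := by
    unfold aU
    congr 1
    ext z
    rw [mem_filter, mem_filter]
    refine and_congr_right fun _ => and_congr_right fun hz => ?_
    exact (K.FU H z hz.le).symm
  have hpU : pU i e = pU i f := by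
    unfold pU
    congr 1
    ext z
    rw [mem_filter, mem_filter]
    refine and_congr_right fun _ => and_congr_right fun hz => ?_
    rw [hf, K.FU H z hz.le, K.GD H z hz]
  have hAU : AU i e = AU i f := by
    ext v
    rw [NormD_mem_AU, NormD_mem_AU]
    exact and_congr_right fun hv => (K.FU H v hv.le).symm
  have hxf : x ∉ AL i f := by
    rw [NormD_mem_AL]
    rintro ⟨-, g1⟩
    exact K.nFD1 H h1 h2 hx hd (Or.inr (Or.inr (Or.inl rfl))) g1
  have hAL : AL i e = insert x (AL i f) := by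
    ext v
    rw [mem_insert, NormD_mem_AL, NormD_mem_AL]
    constructor
    · rintro ⟨g1, g2⟩
      rw [K.FD1 H h1 h2 hx hd v g1.ge] at g2
      rcases g2 with g2 | g2 | g2 | g2
      · exact Or.inr ⟨g1, g2⟩
      · rw [g2] at g1; omega
      · rw [g2] at g1; omega
      · exact Or.inl g2
    · rintro (g1 | ⟨g1, g2⟩)
      · rw [g1]
        exact ⟨lx, (K.FD1 H h1 h2 hx hd _ lx.ge).2 (Or.inr (Or.inr (Or.inr rfl)))⟩
      · exact ⟨g1, (K.FD1 H h1 h2 hx hd v g1.ge).2 (Or.inl g2)⟩
  have hxU : x ∉ AU i f := by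
    rw [← hAU, NormD_mem_AU, FUm]
    rintro ⟨-, y, hy, hlt⟩
    rw [K.u0 y hy] at hlt
    omega
  have hdis : Disjoint (AL i e) (AU i e) ↔ Disjoint (AL i f) (AU i f) := by
    rw [hAL, hAU, disjoint_insert_left]
    exact ⟨fun h => h.2, fun h => ⟨hxU, h⟩⟩
  unfold tC
  by_cases hdd : Disjoint (AL i e) (AU i e)
  swap
  · rw [if_neg hdd, if_neg (fun h => hdd (hdis.2 h)), mul_zero]
  rw [if_pos hdd, if_pos (hdis.1 hdd)]
  have hcard : (AL i e).card = (AL i f).card + 1 := by
    rw [hAL, card_insert_of_notMem hxf]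
  have hle : (AL i e).card + (AU i e).card ≤ (st i C).card := by
    rw [← card_union_of_disjoint hdd]
    exact card_le_card (union_subset (AL_sub hC he) (AU_sub H hC he))
  obtain ⟨N, hN1, hN2⟩ : ∃ N, (st i C).card - (AL i e).card - (AU i e).card = N ∧
      (st i C).card - (AL i f).card - (AU i f).card = N + 1 := by
    refine ⟨_, rfl, ?_⟩
    rw [← hAU]
    omega
  rw [hN1, hN2]
  unfold Win.cw
  by_cases ha : AdmL i e ∧ AdmU i e
  · rw [if_pos ha, if_pos ⟨hAdmL.1 ha.1, hAdmU.1 ha.2⟩, haL, hpL, haU, hpU, hcard]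
    ring
  · rw [if_neg ha, if_neg (fun h => ha ⟨hAdmL.2 h.1, hAdmU.2 h.2⟩)]
    ring

end caseone

section casetwo

variable (H : Gr P r) (K : XcL i d w w2 p x q e) (h1 : e w = 1) (h2 : e w2 = 2) (hx : e x = 0)
  (hd : e d = 2)
include H K h1 h2 hx hd

/-- `FD` in the two states, labels `1, 2` -/
lemma XcL.FD2 (z : P) (hz : i ≤ lev z) :
    FD e z ↔ FD (Kd.xc d x e) z ∨ z = w := by
  obtain ⟨l1, l2, l3, l4, l5⟩ := K.lv H
  have ld := K.ld
  have cw : d ∈ dc w := by rw [mem_dc, ← mem_uc, K.ucd]; simp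
  have cx : w2 ∈ dc x := by rw [K.dcx]; simp
  have nx := K.x_ne H
  have nw : w ≠ d ∧ w ≠ x := ⟨by rintro rfl; omega, by rintro rfl; omega⟩
  have nw2 : w2 ≠ d ∧ w2 ≠ x := ⟨by rintro rfl; omega, by rintro rfl; omega⟩
  rw [FDm, FDm]
  by_cases e1 : z = w
  · subst e1
    exact ⟨fun _ => Or.inr rfl, fun _ => ⟨d, cw, by omega⟩⟩
  have key : (∃ z' ∈ dc z, e z < e z') ↔ ∃ z' ∈ dc z, Kd.xc d x e z < Kd.xc d x e z' := by
    by_cases e3 : z = x
    · subst e3
      constructor
      · intro _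
        refine ⟨w2, cx, ?_⟩
        rw [xc_x nx, xc_of nw2.1 nw2.2]
        omega
      · intro _
        exact ⟨w2, cx, by omega⟩
    by_cases h4 : z = d
    · subst h4
      constructor
      · rintro ⟨t, ht, hlt⟩
        have := K.t1 t ht
        omega
      · rintro ⟨t, ht, hlt⟩
        have hlt' := lev_dc H ht
        rw [xc_d, xc_of (y := t) (by rintro rfl; omega) (by rintro rfl; omega)] at hlt
        have := K.t1 t ht
        omega
    · refine exists_congr fun z' => and_congr_right fun hz' => ?_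
      have hl := lev_dc H hz'
      rw [xc_of h4 e3]
      by_cases h5 : z' = d
      · subst h5
        have h6 : z ∈ uc z' := by rwa [mem_uc, ← mem_dc]
        rw [K.ucd, mem_insert, mem_singleton] at h6
        rcases h6 with rfl | rfl
        · exact absurd rfl e1
        · rw [xc_d]
          omega
      · rw [xc_of h5 (by rintro rfl; omega)]
  rw [key]
  exact ⟨Or.inl, fun h5 => h5.resolve_right e1⟩

lemma XcL.nFD2 : ¬ FD (Kd.xc d x e) w := by
  obtain ⟨l1, l2, l3, l4, l5⟩ := K.lv H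
  have ld := K.ld
  have nw : w ≠ d ∧ w ≠ x := ⟨by rintro rfl; omega, by rintro rfl; omega⟩
  rw [FDm]
  rintro ⟨z', hz', hlt⟩
  have hl := lev_dc H hz'
  rw [xc_of nw.1 nw.2, h1] at hlt
  by_cases h5 : z' = d
  · rw [h5, xc_d, hx] at hlt; omega
  · rw [xc_of h5 (by rintro rfl; omega)] at hlt
    have := K.o1 z' (mem_union_left _ hz') h5
    omega

/-- `GU` below the window in the two states, labels `1, 2` -/
lemma XcL.GU2 (z : P) (hz : i < lev z) :
    GU (Kd.xc d x e) z ↔ GU e z ∨ z = w := by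
  obtain ⟨l1, l2, l3, l4, l5⟩ := K.lv H
  have ld := K.ld
  have nx := K.x_ne H
  have nw : w ≠ d ∧ w ≠ x := ⟨by rintro rfl; omega, by rintro rfl; omega⟩
  have nw2 : w2 ≠ d ∧ w2 ≠ x := ⟨by rintro rfl; omega, by rintro rfl; omega⟩
  have cx : x ∈ uc w := by rw [K.ucw]; simp
  have cd : w2 ∈ uc d := by rw [K.ucd]; simp
  rw [GUm, GUm]
  by_cases e1 : z = w
  · subst e1
    refine ⟨fun _ => Or.inr rfl, fun _ => ⟨x, cx, ?_⟩⟩
    rw [xc_x nx, xc_of nw.1 nw.2]
    omega
  have key : (∃ y ∈ uc z, Kd.xc d x e z ≤ Kd.xc d x e y) ↔ ∃ y ∈ uc z, e z ≤ e y := by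
    by_cases e3 : z = d
    · subst e3
      constructor
      · intro _
        exact ⟨w2, cd, by omega⟩
      · intro _
        refine ⟨w2, cd, ?_⟩
        rw [xc_d, xc_of nw2.1 nw2.2]
        omega
    by_cases h4 : z ∈ dc d
    · have ht := K.t1 z h4
      have hl := lev_dc H h4
      have hd' : d ∈ uc z := by rwa [mem_uc, ← mem_dc]
      constructor
      · intro _
        exact ⟨d, hd', by omega⟩
      · intro _
        refine ⟨d, hd', ?_⟩
        rw [xc_d, xc_of (y := z) (by rintro rfl; omega) (by rintro rfl; omega)]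
        omega
    · refine exists_congr fun y => and_congr_right fun hy => ?_
      have hl := lev_uc H hy
      rw [xc_of (y := z) e3 (by rintro rfl; omega)]
      by_cases h5 : y = x
      · subst h5
        have h6 : z ∈ dc y := by rwa [mem_dc, ← mem_uc]
        rw [K.dcx, mem_insert, mem_singleton] at h6
        rcases h6 with rfl | rfl
        · exact absurd rfl e1
        · rw [xc_x nx]
          omega
      · rw [xc_of (by
          rintro rfl
          exact h4 (by rwa [mem_dc, ← mem_uc])) h5]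
  rw [key]
  exact ⟨Or.inl, fun h5 => h5.resolve_right e1⟩

lemma XcL.nGU2 : ¬ GU e w := by
  rw [GUm]
  rintro ⟨y, hy, hle⟩
  have p0 := K.p0
  rw [K.ucw, mem_insert, mem_singleton] at hy
  rcases hy with rfl | rfl <;> omega

open Classical in
/-- the terms, labels `1, 2` -/
theorem XcL.tC2 (C : Finset P) : tC i C e = xx * tC i C (Kd.xc d x e) := by
  obtain ⟨l1, l2, lx, l4, l5⟩ := K.lv H
  have ld := K.ld
  set f := Kd.xc d x e with hf
  have nF := K.nFD2 H h1 h2 hx hd
  have nG := K.nGU2 H h1 h2 hx hd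
  have hAdmL : AdmL i e ↔ AdmL i f := by
    unfold AdmL
    refine forall_congr' fun z => forall_congr' fun hz => not_congr ?_
    rw [K.FD2 H h1 h2 hx hd z hz.le, hf, K.GU2 H h1 h2 hx hd z hz]
    constructor
    · rintro ⟨g1, g2⟩
      refine ⟨g1.resolve_right ?_, Or.inl g2⟩
      intro g3
      rw [g3] at g2
      exact nG g2
    · rintro ⟨g1, g2⟩
      refine ⟨Or.inl g1, g2.resolve_right ?_⟩
      intro g3
      rw [g3] at g1
      exact nF g1
  have hAdmU : AdmU i e ↔ AdmU i f := by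
    unfold AdmU
    refine forall_congr' fun z => forall_congr' fun hz => not_congr ?_
    rw [hf, K.FU H z hz.le, K.GD H z hz]
  have haL : aL i e = aL i f + 1 := by
    unfold aL
    have g1 : univ.filter (fun z : P => i < lev z ∧ FD e z) =
        insert w (univ.filter (fun z : P => i < lev z ∧ FD f z)) := by
      ext z
      simp only [mem_filter, mem_univ, true_and, mem_insert]
      constructor
      · rintro ⟨g1, g2⟩
        rw [K.FD2 H h1 h2 hx hd z g1.le] at g2
        rcases g2 with g2 | g2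
        · exact Or.inr ⟨g1, g2⟩
        · exact Or.inl g2
      · rintro (g1 | ⟨g1, g2⟩)
        · refine ⟨by rw [g1]; omega,
            (K.FD2 H h1 h2 hx hd z (by rw [g1]; omega)).2 (Or.inr g1)⟩
        · exact ⟨g1, (K.FD2 H h1 h2 hx hd z g1.le).2 (Or.inl g2)⟩
    rw [g1, card_insert_of_notMem]
    rw [mem_filter]
    rintro ⟨-, -, g2⟩
    exact nF g2
  have hpL : pL i e = pL i f := by
    unfold pL
    congr 1
    ext z
    rw [mem_filter, mem_filter]
    refine and_congr_right fun _ => and_congr_right fun hz => ?_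
    rw [K.FD2 H h1 h2 hx hd z hz.le, hf, K.GU2 H h1 h2 hx hd z hz]
    constructor
    · rintro ⟨g1, g2⟩
      push Not at g1
      exact ⟨g1.1, fun g3 => g3.elim g2 g1.2⟩
    · rintro ⟨g1, g2⟩
      push Not at g2
      exact ⟨fun g3 => g3.elim g1 g2.2, g2.1⟩
  have haU : aU i e = aU i f := by
    unfold aU
    congr 1
    ext z
    rw [mem_filter, mem_filter]
    refine and_congr_right fun _ => and_congr_right fun hz => ?_
    exact (K.FU H z hz.le).symm
  have hpU : pU i e = pU i f := by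
    unfold pU
    congr 1
    ext z
    rw [mem_filter, mem_filter]
    refine and_congr_right fun _ => and_congr_right fun hz => ?_
    rw [hf, K.FU H z hz.le, K.GD H z hz]
  have hAU : AU i e = AU i f := by
    ext v
    rw [NormD_mem_AU, NormD_mem_AU]
    exact and_congr_right fun hv => (K.FU H v hv.le).symm
  have hAL : AL i e = AL i f := by
    ext v
    rw [NormD_mem_AL, NormD_mem_AL]
    refine and_congr_right fun hv => ?_
    rw [K.FD2 H h1 h2 hx hd v hv.ge]
    constructor
    · rintro (g1 | g1)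
      · exact g1
      · rw [g1] at hv
        omega
    · exact Or.inl
  unfold tC
  rw [hAL, hAU]
  by_cases hdd : Disjoint (AL i f) (AU i f)
  swap
  · rw [if_neg hdd, if_neg hdd, mul_zero]
  rw [if_pos hdd, if_pos hdd]
  unfold Win.cw
  by_cases ha : AdmL i e ∧ AdmU i e
  · rw [if_pos ha, if_pos ⟨hAdmL.1 ha.1, hAdmU.1 ha.2⟩, haL, hpL, haU, hpU]
    ring
  · rw [if_neg ha, if_neg (fun h => ha ⟨hAdmL.2 h.1, hAdmU.2 h.2⟩)]
    ring

end casetwo

lemma one_add_xx : (1 : A) + xx = dd := by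
  unfold xx
  ring

/-- the sum of the two terms, first state -/
lemma XcL.sumA (H : Gr P r) (K : XcL i d w w2 p x q e) {C : Finset P} (hC : Part i C)
    (he : Spt C e) (hx : e x = 0) :
    ∃ c, tC i C e + tC i C (Kd.xc d x e) = dd * (c * tC i C (Kd.xc d x e)) := by
  rcases K.lab with ⟨h1, h2, h3⟩ | ⟨h1 | h1, h3⟩
  · have h4 : 2 ≤ e d := by omega
    obtain ⟨c, hc⟩ := dd_dvd_cube
    refine ⟨c, ?_⟩
    rw [K.tC1 H h1 h2 hx h4 hC he]
    calc xx ^ 3 * tC i C (Kd.xc d x e) + tC i C (Kd.xc d x e)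
        = (1 + xx ^ 3) * tC i C (Kd.xc d x e) := by ring
      _ = dd * (c * tC i C (Kd.xc d x e)) := by rw [hc]; ring
  · have h4 : e d = 2 := by omega
    refine ⟨1, ?_⟩
    rw [K.tC2 H h1.1 h1.2 hx h4 C]
    calc xx * tC i C (Kd.xc d x e) + tC i C (Kd.xc d x e)
        = (1 + xx) * tC i C (Kd.xc d x e) := by ring
      _ = dd * (1 * tC i C (Kd.xc d x e)) := by rw [one_add_xx]; ring
  · have h4 : e d = 2 := by omega
    refine ⟨1, ?_⟩
    rw [K.symm.tC2 H h1.2 h1.1 hx h4 C]
    calc xx * tC i C (Kd.xc d x e) + tC i C (Kd.xc d x e)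
        = (1 + xx) * tC i C (Kd.xc d x e) := by ring
      _ = dd * (1 * tC i C (Kd.xc d x e)) := by rw [one_add_xx]; ring

/-- an exchange stays in the part -/
lemma XcL.spt (H : Gr P r) (K : XcL i d w w2 p x q e) {C : Finset P} (hC : Part i C)
    (he : Spt C e) : d ∈ C ∧ x ∈ C ∧ Spt C (Kd.xc d x e) := by
  have hd1 := K.lab.one
  have hdC : d ∈ C := by
    by_contra hcon
    have := he d hcon
    omega
  have hwC : w ∈ C := hC.up hdC (mem_uc.1 (by rw [K.ucd]; simp))
  have hxC : x ∈ C := hC.up hwC (mem_uc.1 (by rw [K.ucw]; simp))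
  refine ⟨hdC, hxC, fun y hy => ?_⟩
  rw [xc_of (by rintro rfl; exact hy hdC) (by rintro rfl; exact hy hxC)]
  exact he y hy

/-- THE EXCHANGE below the window -/
theorem XcL.main (H : Gr P r) (K : XcL i d w w2 p x q e) {C : Finset P} (hC : Part i C)
    (he : Spt C e) : XcL i d w w2 p x q (Kd.xc d x e) ∧ Kd.xc d x (Kd.xc d x e) = e ∧
      Kd.xc d x e ≠ e ∧
      ((∃ c, tC i C e + tC i C (Kd.xc d x e) = dd * (c * tC i C e)) ∨
        ∃ c, tC i C e + tC i C (Kd.xc d x e) = dd * (c * tC i C (Kd.xc d x e))) := by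
  have nx := K.x_ne H
  have K' := K.xc H
  have hxx := xc_xc nx K.lab.one
  refine ⟨K', hxx, K.lab.xc_ne nx, ?_⟩
  by_cases hx : e x = 0
  · exact Or.inr (K.sumA H hC he hx)
  · left
    have hx' : Kd.xc d x e x = 0 := by
      rw [xc_x nx]
      have := K.lab
      unfold Lab at this
      omega
    obtain ⟨c, hc⟩ := K'.sumA H hC (K.spt H hC he).2.2 hx'
    rw [hxx] at hc
    exact ⟨c, by rw [add_comm, hc]⟩

end low

end Pool.Agent.GaussPoset.Win.Kd
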